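import Pool.Agent.W372.PL.OFD2
import Pool.Agent.H510R2.Div

/-!
PL project, task OFD, part 3 (helper372): the sum of the majorant, the bounds for the weight.
-/

namespace Pool.Agent.W372.PL

open Finset
open Pool.Agent.H442R2
open Pool.Agent.H442R2.KF
open Pool.Agent.H442R2.BX
open Pool.Agent.H442R2.BX.TaskEX
open Pool.Agent.W23.DC
open Pool.Agent.W23.PL

theorem tsW (N : ℕ) (hN : 1 ≤ N) (l : ℕ) (hl : 1 ≤ l) (b : ℤ) :
    Summable (fun n : ℤ => Wt N n * II l (n - b)) ∧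
      ∑' n : ℤ, Wt N n * II l (n - b) ≤ 4 * ((N : ℝ) / l + 1) := by
  refine ⟨summable_bd N hN _ 1 fun n => II_abs _ _, ?_⟩
  have h1 := (BX.GS N hN).2 l b hl
  have h2 : ∀ n : ℤ, Wt N n * II l (n - b) = if (l : ℤ) ∣ n - b then Wt N n else 0 := by
    intro n
    unfold II
    by_cases h : (l : ℤ) ∣ n - b <;> simp [h]
  rw [tsum_congr h2]
  exact h1

theorem tsW1 (N : ℕ) (hN : 1 ≤ N) :
    Summable (fun n : ℤ => Wt N n * II 1 n) ∧
      ∑' n : ℤ, Wt N n * II 1 n ≤ 4 * ((N : ℝ) + 1) := by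
  have h := tsW N hN 1 le_rfl 0
  simpa using h

/-- summability and the sum of a double sum over pairs -/
theorem ts_pairs (R : Finset ℕ) (S : ℕ → Finset ℕ) (w : ℕ → ℕ → ℝ) (F : ℕ → ℕ → ℤ → ℝ)
    (B : ℕ → ℕ → ℝ) (hw : ∀ d ∈ R, ∀ d' ∈ S d, 0 ≤ w d d')
    (hF : ∀ d ∈ R, ∀ d' ∈ S d, Summable (F d d') ∧ ∑' n, F d d' n ≤ B d d') :
    Summable (fun n : ℤ => ∑ d ∈ R, ∑ d' ∈ S d, w d d' * F d d' n) ∧
      ∑' n : ℤ, ∑ d ∈ R, ∑ d' ∈ S d, w d d' * F d d' n ≤ ∑ d ∈ R, ∑ d' ∈ S d, w d d' * B d d' := by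
  have h1 : ∀ d ∈ R, ∀ d' ∈ S d, Summable (fun n => w d d' * F d d' n) :=
    fun d hd d' hd' => (hF d hd d' hd').1.mul_left _
  have h2 : ∀ d ∈ R, Summable (fun n => ∑ d' ∈ S d, w d d' * F d d' n) :=
    fun d hd => summable_sum fun d' hd' => h1 d hd d' hd'
  refine ⟨summable_sum h2, ?_⟩
  rw [Summable.tsum_finsetSum h2]
  refine Finset.sum_le_sum fun d hd => ?_
  rw [Summable.tsum_finsetSum (h1 d hd)]
  refine Finset.sum_le_sum fun d' hd' => ?_
  rw [tsum_mul_left]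
  exact mul_le_mul_of_nonneg_left (hF d hd d' hd').2 (hw d hd d' hd')

theorem Maj_sum (y : ℝ) (hy : 0 < y) (N X : ℕ) (hN : 1 ≤ N) (hXN : X ≤ N) (C0 BR : ℝ) (hC0 : 0 < C0)
    (a a' : ℤ) (hcard : (((rd y (2 * N) (a' - a)).filter Nat.Prime).card : ℝ) ≤ 2 * C0)
    (hRB : ∑ d ∈ roughs y X, ∑ d' ∈ (roughs y X).filter (fun d' => ¬ Nat.Coprime d d'),
      1 / ((d : ℝ) * d') ≤ BR) :
    Summable (fun n : ℤ => Maj y N X C0 a a' n) ∧
      ∑' n : ℤ, Maj y N X C0 a a' n ≤ C0 ^ 2 * (2 * C0 * (4 * (2 * N / y + 1))) +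
        2 * (8 * N * BR + 4 * X * (1 + Real.log N)) + 4 * (2 * N + 1) * BR := by
  classical
  have hN0 : (0 : ℝ) < N := by exact_mod_cast (by omega : 0 < N)
  have hlog : 0 ≤ Real.log N := Real.log_natCast_nonneg N
  have h2N : 1 ≤ 2 * N := by omega
  set R := roughs y X with hR
  have hR1 : ∀ d ∈ R, (1 : ℝ) ≤ d := by
    intro d hd
    exact_mod_cast (mem_roughs.1 hd).1.1
  have hR1' : ∀ d ∈ R, 1 ≤ d := fun d hd => (mem_roughs.1 hd).1.1
  -- part A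
  have hA1 : ∀ l ∈ (rd y (2 * N) (a' - a)).filter Nat.Prime,
      Summable (fun n : ℤ => Wt (2 * N) n * II l (n - a)) ∧
      ∑' n : ℤ, Wt (2 * N) n * II l (n - a) ≤ 4 * (2 * N / y + 1) := by
    intro l hl
    have hlp : l.Prime := (mem_filter.1 hl).2
    have hly : y < l := by
      have h1 := (mem_filter.1 hl).1
      unfold rd at h1
      exact (mem_roughs.1 (mem_filter.1 h1).1).2.2 l hlp dvd_rfl
    have h3 := tsW (2 * N) h2N l hlp.one_le a
    refine ⟨h3.1, h3.2.trans ?_⟩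
    have h4 : ((2 * N : ℕ) : ℝ) / l ≤ 2 * N / y := by
      push_cast
      exact div_le_div_of_nonneg_left (by positivity) hy hly.le
    linarith
  have hAs : Summable (fun n : ℤ =>
      C0 ^ 2 * ∑ l ∈ (rd y (2 * N) (a' - a)).filter Nat.Prime, Wt (2 * N) n * II l (n - a)) :=
    (summable_sum fun l hl => (hA1 l hl).1).mul_left _
  have hAt : ∑' n : ℤ,
      C0 ^ 2 * ∑ l ∈ (rd y (2 * N) (a' - a)).filter Nat.Prime, Wt (2 * N) n * II l (n - a) ≤
      C0 ^ 2 * (2 * C0 * (4 * (2 * N / y + 1))) := by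
    rw [tsum_mul_left]
    refine mul_le_mul_of_nonneg_left ?_ (by positivity)
    rw [Summable.tsum_finsetSum fun l hl => (hA1 l hl).1]
    calc ∑ l ∈ (rd y (2 * N) (a' - a)).filter Nat.Prime, ∑' n : ℤ, Wt (2 * N) n * II l (n - a)
        ≤ ∑ l ∈ (rd y (2 * N) (a' - a)).filter Nat.Prime, 4 * (2 * N / y + 1) :=
          Finset.sum_le_sum fun l hl => (hA1 l hl).2
      _ = (((rd y (2 * N) (a' - a)).filter Nat.Prime).card : ℝ) * (4 * (2 * N / y + 1)) := by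
          rw [Finset.sum_const, nsmul_eq_mul]
      _ ≤ 2 * C0 * (4 * (2 * N / y + 1)) :=
          mul_le_mul_of_nonneg_right hcard (by positivity)
  -- parts B, C, D
  have hB := ts_pairs R (fun d => R.filter (fun d' => ¬ Nat.Coprime d d'))
    (fun _ d' => 1 / (d' : ℝ)) (fun d _ n => Wt (2 * N) n * II d (n - a))
    (fun d _ => 4 * (((2 * N : ℕ) : ℝ) / d + 1)) (fun d _ d' _ => by positivity)
    (fun d hd d' _ => tsW (2 * N) h2N d (hR1' d hd) a)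
  have hC := ts_pairs R (fun d => R.filter (fun d' => ¬ Nat.Coprime d d'))
    (fun d _ => 1 / (d : ℝ)) (fun _ d' n => Wt (2 * N) n * II d' (n - a'))
    (fun _ d' => 4 * (((2 * N : ℕ) : ℝ) / d' + 1)) (fun d _ d' _ => by positivity)
    (fun d hd d' hd' => tsW (2 * N) h2N d' (hR1' d' (mem_filter.1 hd').1) a')
  have hD := ts_pairs R (fun d => R.filter (fun d' => ¬ Nat.Coprime d d'))
    (fun d d' => 1 / ((d : ℝ) * d')) (fun _ _ n => Wt (2 * N) n * II 1 n)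
    (fun _ _ => 4 * (((2 * N : ℕ) : ℝ) + 1)) (fun d _ d' _ => by positivity)
    (fun d hd d' hd' => tsW1 (2 * N) h2N)
  have hcR := card_roughs y X
  have hhR := harm X N hXN y
  have hX0 : (0 : ℝ) ≤ X := by positivity
  have hB2 : ∑ d ∈ R, ∑ d' ∈ R.filter (fun d' => ¬ Nat.Coprime d d'),
      1 / (d' : ℝ) * (4 * (((2 * N : ℕ) : ℝ) / d + 1)) ≤
      8 * N * BR + 4 * X * (1 + Real.log N) := by
    have e1 : ∑ d ∈ R, ∑ d' ∈ R.filter (fun d' => ¬ Nat.Coprime d d'),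
        1 / (d' : ℝ) * (4 * (((2 * N : ℕ) : ℝ) / d + 1)) =
        8 * N * (∑ d ∈ R, ∑ d' ∈ R.filter (fun d' => ¬ Nat.Coprime d d'), 1 / ((d : ℝ) * d')) +
        4 * ∑ d ∈ R, ∑ d' ∈ R.filter (fun d' => ¬ Nat.Coprime d d'), 1 / (d' : ℝ) := by
      rw [Finset.mul_sum, Finset.mul_sum, ← Finset.sum_add_distrib]
      refine Finset.sum_congr rfl fun d _ => ?_
      rw [Finset.mul_sum, Finset.mul_sum, ← Finset.sum_add_distrib]
      refine Finset.sum_congr rfl fun d' _ => ?_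
      push_cast
      rw [one_div, one_div, mul_inv]
      ring
    have e2 : ∑ d ∈ R, ∑ d' ∈ R.filter (fun d' => ¬ Nat.Coprime d d'), 1 / (d' : ℝ) ≤
        X * (1 + Real.log N) := by
      calc ∑ d ∈ R, ∑ d' ∈ R.filter (fun d' => ¬ Nat.Coprime d d'), 1 / (d' : ℝ) ≤
          ∑ d ∈ R, ∑ d' ∈ R, 1 / (d' : ℝ) := by
            refine Finset.sum_le_sum fun d _ => ?_
            exact Finset.sum_le_sum_of_subset_of_nonneg (filter_subset _ _)
              fun _ _ _ => by positivity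
        _ = (R.card : ℝ) * ∑ d' ∈ R, 1 / (d' : ℝ) := by
            rw [Finset.sum_const, nsmul_eq_mul]
        _ ≤ X * (1 + Real.log N) :=
            mul_le_mul hcR hhR (Finset.sum_nonneg fun _ _ => by positivity) hX0
    rw [e1]
    have e3 := mul_le_mul_of_nonneg_left hRB (by positivity : (0 : ℝ) ≤ 8 * N)
    linarith
  have hC2 : ∑ d ∈ R, ∑ d' ∈ R.filter (fun d' => ¬ Nat.Coprime d d'),
      1 / (d : ℝ) * (4 * (((2 * N : ℕ) : ℝ) / d' + 1)) ≤
      8 * N * BR + 4 * X * (1 + Real.log N) := by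
    have e1 : ∑ d ∈ R, ∑ d' ∈ R.filter (fun d' => ¬ Nat.Coprime d d'),
        1 / (d : ℝ) * (4 * (((2 * N : ℕ) : ℝ) / d' + 1)) =
        8 * N * (∑ d ∈ R, ∑ d' ∈ R.filter (fun d' => ¬ Nat.Coprime d d'), 1 / ((d : ℝ) * d')) +
        4 * ∑ d ∈ R, ∑ d' ∈ R.filter (fun d' => ¬ Nat.Coprime d d'), 1 / (d : ℝ) := by
      rw [Finset.mul_sum, Finset.mul_sum, ← Finset.sum_add_distrib]
      refine Finset.sum_congr rfl fun d _ => ?_
      rw [Finset.mul_sum, Finset.mul_sum, ← Finset.sum_add_distrib]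
      refine Finset.sum_congr rfl fun d' _ => ?_
      push_cast
      rw [one_div, one_div, mul_inv]
      ring
    have e2 : ∑ d ∈ R, ∑ d' ∈ R.filter (fun d' => ¬ Nat.Coprime d d'), 1 / (d : ℝ) ≤
        X * (1 + Real.log N) := by
      calc ∑ d ∈ R, ∑ d' ∈ R.filter (fun d' => ¬ Nat.Coprime d d'), 1 / (d : ℝ) ≤
          ∑ d ∈ R, ∑ d' ∈ R, 1 / (d : ℝ) := by
            refine Finset.sum_le_sum fun d _ => ?_
            exact Finset.sum_le_sum_of_subset_of_nonneg (filter_subset _ _)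
              fun _ _ _ => by positivity
        _ = (R.card : ℝ) * ∑ d ∈ R, 1 / (d : ℝ) := by
            rw [Finset.mul_sum]
            refine Finset.sum_congr rfl fun d _ => ?_
            rw [Finset.sum_const, nsmul_eq_mul]
        _ ≤ X * (1 + Real.log N) :=
            mul_le_mul hcR hhR (Finset.sum_nonneg fun _ _ => by positivity) hX0
    rw [e1]
    have e3 := mul_le_mul_of_nonneg_left hRB (by positivity : (0 : ℝ) ≤ 8 * N)
    linarith
  have hD2 : ∑ d ∈ R, ∑ d' ∈ R.filter (fun d' => ¬ Nat.Coprime d d'),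
      1 / ((d : ℝ) * d') * (4 * (((2 * N : ℕ) : ℝ) + 1)) ≤ 4 * (2 * N + 1) * BR := by
    have e1 : ∑ d ∈ R, ∑ d' ∈ R.filter (fun d' => ¬ Nat.Coprime d d'),
        1 / ((d : ℝ) * d') * (4 * (((2 * N : ℕ) : ℝ) + 1)) =
        4 * (2 * N + 1) *
          ∑ d ∈ R, ∑ d' ∈ R.filter (fun d' => ¬ Nat.Coprime d d'), 1 / ((d : ℝ) * d') := by
      rw [Finset.mul_sum]
      refine Finset.sum_congr rfl fun d _ => ?_
      rw [Finset.mul_sum]
      refine Finset.sum_congr rfl fun d' _ => ?_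
      push_cast
      ring
    rw [e1]
    exact mul_le_mul_of_nonneg_left hRB (by positivity)
  have hs := ((hAs.add hB.1).add hC.1).add hD.1
  refine ⟨hs, ?_⟩
  have ht : ∑' n : ℤ, Maj y N X C0 a a' n =
      (∑' n : ℤ, C0 ^ 2 * ∑ l ∈ (rd y (2 * N) (a' - a)).filter Nat.Prime,
        Wt (2 * N) n * II l (n - a)) +
      (∑' n : ℤ, ∑ d ∈ R, ∑ d' ∈ R.filter (fun d' => ¬ Nat.Coprime d d'),
        1 / (d' : ℝ) * (Wt (2 * N) n * II d (n - a))) +
      (∑' n : ℤ, ∑ d ∈ R, ∑ d' ∈ R.filter (fun d' => ¬ Nat.Coprime d d'),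
        1 / (d : ℝ) * (Wt (2 * N) n * II d' (n - a'))) +
      (∑' n : ℤ, ∑ d ∈ R, ∑ d' ∈ R.filter (fun d' => ¬ Nat.Coprime d d'),
        1 / ((d : ℝ) * d') * (Wt (2 * N) n * II 1 n)) := by
    rw [← hAs.tsum_add hB.1, ← (hAs.add hB.1).tsum_add hC.1,
      ← ((hAs.add hB.1).add hC.1).tsum_add hD.1]
    rfl
  rw [ht]
  have hB3 := hB.2.trans hB2
  have hC3 := hC.2.trans hC2
  have hD3 := hD.2.trans hD2
  linarith

/-! ### The weight -/

theorem Ev_abs_le (P : Finset ℕ) (D : ℕ) (U : ℝ) (th : ℕ → ℝ) (h : DW P D U th) (m : ℤ) :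
    |Ev th D m| ≤ D * U := by
  rw [Ev_eq]
  calc |∑ k ∈ Icc 1 D, th k * II k m| ≤ ∑ k ∈ Icc 1 D, |th k * II k m| :=
        Finset.abs_sum_le_sum_abs _ _
    _ ≤ ∑ k ∈ Icc 1 D, U := by
        refine Finset.sum_le_sum fun k _ => ?_
        rw [abs_mul]
        calc |th k| * |II k m| ≤ U * 1 :=
              mul_le_mul (h.bd k) (II_abs _ _) (abs_nonneg _) ((abs_nonneg _).trans (h.bd k))
          _ = U := mul_one U
    _ = D * U := by simp

theorem Ev_le_tau (P : Finset ℕ) (D : ℕ) (U : ℝ) (th : ℕ → ℝ) (h : DW P D U th) (m : ℤ)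
    (hm : m ≠ 0) : Ev th D m ≤ U * (m.natAbs.divisors.card : ℝ) := by
  classical
  have hU : 0 ≤ U := (abs_nonneg _).trans (h.bd 0)
  rw [Ev_eq]
  calc ∑ k ∈ Icc 1 D, th k * II k m ≤ ∑ k ∈ Icc 1 D, U * II k m := by
        refine Finset.sum_le_sum fun k _ => ?_
        exact mul_le_mul_of_nonneg_right ((le_abs_self _).trans (h.bd k)) (II_nonneg _ _)
    _ = U * (((Icc 1 D).filter (fun k : ℕ => (k : ℤ) ∣ m)).card : ℝ) := by
        rw [← Finset.mul_sum]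
        unfold II
        rw [Finset.sum_boole]
    _ ≤ U * (m.natAbs.divisors.card : ℝ) := by
        refine mul_le_mul_of_nonneg_left ?_ hU
        have : (Icc 1 D).filter (fun k : ℕ => (k : ℤ) ∣ m) ⊆ m.natAbs.divisors := by
          intro k hk
          rw [mem_filter] at hk
          rw [Nat.mem_divisors]
          exact ⟨Int.natCast_dvd.1 hk.2, Int.natAbs_ne_zero.2 hm⟩
        exact_mod_cast Finset.card_le_card this

theorem nuS_le_tau (lam : ℕ → ℝ) (z : ℕ) (hl : ∀ q, |lam q| ≤ 1) (n : ℤ) (hn : n ≠ 0) :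
    nuS lam z n ≤ (n.natAbs.divisors.card : ℝ) ^ 2 := by
  classical
  unfold nuS
  have h : |∑ q ∈ (Icc 1 z).filter (fun q : ℕ => (q : ℤ) ∣ n), lam q| ≤
      (n.natAbs.divisors.card : ℝ) := by
    calc |∑ q ∈ (Icc 1 z).filter (fun q : ℕ => (q : ℤ) ∣ n), lam q|
        ≤ ∑ q ∈ (Icc 1 z).filter (fun q : ℕ => (q : ℤ) ∣ n), |lam q| :=
          Finset.abs_sum_le_sum_abs _ _
      _ ≤ ∑ q ∈ (Icc 1 z).filter (fun q : ℕ => (q : ℤ) ∣ n), (1 : ℝ) :=
          Finset.sum_le_sum fun q _ => hl q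
      _ = (((Icc 1 z).filter (fun q : ℕ => (q : ℤ) ∣ n)).card : ℝ) := by simp
      _ ≤ (n.natAbs.divisors.card : ℝ) := by
          have : (Icc 1 z).filter (fun k : ℕ => (k : ℤ) ∣ n) ⊆ n.natAbs.divisors := by
            intro k hk
            rw [mem_filter] at hk
            rw [Nat.mem_divisors]
            exact ⟨Int.natCast_dvd.1 hk.2, Int.natAbs_ne_zero.2 hn⟩
          exact_mod_cast Finset.card_le_card this
  rw [← sq_abs]
  exact pow_le_pow_left₀ (abs_nonneg _) h 2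

/-- the divisor bound at the three points -/
theorem G_gen (κ Cτ : ℝ) (hκ : 0 < κ) (hκ8 : κ ≤ 1 / 8) (hCτ : 0 < Cτ)
    (hτ : ∀ n : ℕ, 1 ≤ n → (n.divisors.card : ℝ) ≤ Cτ * (n : ℝ) ^ κ)
    (N z D : ℕ) (hN : 1 ≤ N) (U : ℝ) (P : Finset ℕ) (lam th th' : ℕ → ℝ) (hl : ∀ q, |lam q| ≤ 1)
    (hth : DW P D U th) (hth' : DW P D U th') (hp : ∀ m : ℤ, 0 ≤ Ev th D m)
    (hp' : ∀ m : ℤ, 0 ≤ Ev th' D m) (a a' n : ℤ) (ha : |(a : ℝ)| ≤ N) (ha' : |(a' : ℝ)| ≤ N)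
    (hn : n ≠ 0) (hna : n ≠ a) (hna' : n ≠ a') :
    Wt N n * nuS lam z n * (Ev th D (n - a) * Ev th' D (n - a')) ≤
      (Cτ ^ 4 * U ^ 2 * (N : ℝ) ^ (4 * κ)) * (1 + |(n : ℝ)| / N) ^ (1 / 2 : ℝ) * Wt N n := by
  have hU : 0 ≤ U := (abs_nonneg _).trans (hth.bd 0)
  have hN0 : (0 : ℝ) < N := by exact_mod_cast (by omega : 0 < N)
  set x := 1 + |(n : ℝ)| / N with hx
  have hx1 : 1 ≤ x := by
    have : 0 ≤ |(n : ℝ)| / N := by positivity
    linarith
  have hNx : (N : ℝ) * x = N + |(n : ℝ)| := by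
    rw [hx]; field_simp
  set T := Cτ * ((N : ℝ) * x) ^ κ with hT
  have hT0 : 0 ≤ T := by positivity
  have key : ∀ m : ℤ, m ≠ 0 → |(m : ℝ)| ≤ N * x → (m.natAbs.divisors.card : ℝ) ≤ T := by
    intro m hm hmx
    have h1 := hτ m.natAbs (Int.natAbs_pos.2 hm)
    refine h1.trans ?_
    rw [hT]
    refine mul_le_mul_of_nonneg_left ?_ hCτ.le
    refine Real.rpow_le_rpow (by positivity) ?_ hκ.le
    rw [Nat.cast_natAbs]
    push_cast
    exact hmx
  have h1 : nuS lam z n ≤ T ^ 2 := by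
    refine (nuS_le_tau lam z hl n hn).trans ?_
    refine pow_le_pow_left₀ (by positivity) (key n hn ?_) 2
    rw [hNx]; linarith
  have h2 : ∀ (b : ℤ) (t : ℕ → ℝ), DW P D U t → |(b : ℝ)| ≤ N → n ≠ b →
      Ev t D (n - b) ≤ U * T := by
    intro b t ht hb hnb
    refine (Ev_le_tau P D U t ht (n - b) (sub_ne_zero.2 hnb)).trans ?_
    refine mul_le_mul_of_nonneg_left (key _ (sub_ne_zero.2 hnb) ?_) hU
    rw [hNx]
    push_cast
    have := abs_sub (n : ℝ) (b : ℝ)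
    linarith
  have h3 := h2 a th hth ha hna
  have h4 := h2 a' th' hth' ha' hna'
  have h5 : T ^ 4 ≤ Cτ ^ 4 * (N : ℝ) ^ (4 * κ) * x ^ (1 / 2 : ℝ) := by
    have e1 : T ^ 4 = Cτ ^ 4 * ((N : ℝ) ^ (4 * κ) * x ^ (4 * κ)) := by
      rw [hT, mul_pow, ← Real.rpow_natCast, ← Real.rpow_natCast, ← Real.rpow_mul (by positivity),
        ← Real.mul_rpow hN0.le (by linarith)]
      push_cast
      rw [mul_comm κ 4]
    rw [e1]
    have e2 : x ^ (4 * κ) ≤ x ^ (1 / 2 : ℝ) :=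
      Real.rpow_le_rpow_of_exponent_le hx1 (by linarith)
    have e3 : (0 : ℝ) ≤ Cτ ^ 4 * (N : ℝ) ^ (4 * κ) := by positivity
    calc Cτ ^ 4 * ((N : ℝ) ^ (4 * κ) * x ^ (4 * κ)) = Cτ ^ 4 * (N : ℝ) ^ (4 * κ) * x ^ (4 * κ) := by
          ring
      _ ≤ _ := mul_le_mul_of_nonneg_left e2 e3
  have hW := (Wt_pos N n).le
  have h6 : Ev th D (n - a) * Ev th' D (n - a') ≤ (U * T) * (U * T) :=
    mul_le_mul h3 h4 (hp' _) (by positivity)
  calc Wt N n * nuS lam z n * (Ev th D (n - a) * Ev th' D (n - a'))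
      ≤ Wt N n * T ^ 2 * ((U * T) * (U * T)) := by
        refine mul_le_mul (mul_le_mul_of_nonneg_left h1 hW) h6 (mul_nonneg (hp _) (hp' _))
          (by positivity)
    _ = U ^ 2 * Wt N n * T ^ 4 := by ring
    _ ≤ U ^ 2 * Wt N n * (Cτ ^ 4 * (N : ℝ) ^ (4 * κ) * x ^ (1 / 2 : ℝ)) :=
        mul_le_mul_of_nonneg_left h5 (by positivity)
    _ = _ := by ring

theorem G_crude (N z D : ℕ) (U : ℝ) (P : Finset ℕ) (lam th th' : ℕ → ℝ)
    (hl : ∀ q, |lam q| ≤ 1) (hth : DW P D U th) (hth' : DW P D U th') (a a' n : ℤ) :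
    |Wt N n * nuS lam z n * (Ev th D (n - a) * Ev th' D (n - a'))| ≤
      Wt N n * ((z : ℝ) ^ 2 * (D : ℝ) ^ 2 * U ^ 2) := by
  have hU : 0 ≤ U := (abs_nonneg _).trans (hth.bd 0)
  have hW := (Wt_pos N n).le
  have h1 := TaskTT.nuS_le lam hl z n
  have h2 := Ev_abs_le P D U th hth (n - a)
  have h3 := Ev_abs_le P D U th' hth' (n - a')
  rw [abs_mul, abs_mul, abs_mul, abs_of_nonneg hW, abs_of_nonneg (TaskTT.nuS_nonneg lam z n)]
  calc Wt N n * nuS lam z n * (|Ev th D (n - a)| * |Ev th' D (n - a')|)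
      ≤ Wt N n * (z : ℝ) ^ 2 * ((D * U) * (D * U)) := by
        refine mul_le_mul (mul_le_mul_of_nonneg_left h1 hW)
          (mul_le_mul h2 h3 (abs_nonneg _) (by positivity)) (by positivity) (by positivity)
    _ = _ := by ring

end Pool.Agent.W372.PL
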