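import Pool.Agent.W372.PL.OFD3

/-!
PL project, task OFD (helper372): the main off-diagonal estimate.
-/

namespace Pool.Agent.W372.PL

open Finset
open Pool.Agent.H442R2
open Pool.Agent.H442R2.KF
open Pool.Agent.H442R2.BX
open Pool.Agent.H442R2.BX.TaskEX
open Pool.Agent.W23.DC
open Pool.Agent.W23.PL

/-- the sum, given the bound for the coprime pairs and the pointwise bounds -/
theorem total (N z D D0 X : ℕ) (hN : 1 ≤ N) (hXN : X ≤ N) (y : ℝ) (hy : 0 < y) (U : ℝ) (P : Finset ℕ)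
    (lam th th' : ℕ → ℝ) (hl : ∀ q, |lam q| ≤ 1) (hth : DW P D U th) (hth' : DW P D U th')
    (hp : ∀ m : ℤ, 0 ≤ Ev th D m) (hp' : ∀ m : ℤ, 0 ≤ Ev th' D m) (a a' : ℤ)
    (ha : |(a : ℝ)| ≤ N) (ha' : |(a' : ℝ)| ≤ N) (haa : a ≠ a') (c c' : ℕ → ℝ)
    (hc : CofR y X c) (hc' : CofR y X c') (hD : ∀ d, c d ≠ 0 → D0 < d)
    (hD' : ∀ d, c' d ≠ 0 → D0 < d) (C0 : ℝ) (hC0 : 0 < C0)
    (hrc : ∀ (X : ℕ) (a n : ℤ), |(a : ℝ)| ≤ N → n ≠ a →
      ((rd y X (n - a)).card : ℝ) ≤ C0 * (1 + |(n : ℝ)| / N) ^ (1 / 4 : ℝ))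
    (BR : ℝ) (hRB : ∑ d ∈ roughs y X, ∑ d' ∈ (roughs y X).filter (fun d' => ¬ Nat.Coprime d d'),
      1 / ((d : ℝ) * d') ≤ BR)
    (κ Cτ : ℝ) (hκ : 0 < κ) (hκ8 : κ ≤ 1 / 8) (hCτ : 0 < Cτ)
    (hτ : ∀ n : ℕ, 1 ≤ n → (n.divisors.card : ℝ) ≤ Cτ * (n : ℝ) ^ κ)
    (B : ℝ) (hB : |∑' n : ℤ, Wt N n * nuS lam z n * (Ev th D (n - a) * Ev th' D (n - a')) *
      Mc c c' D0 X a a' n| ≤ B) :
    |∑' n : ℤ, Wt N n * nuS lam z n * (Ev th D (n - a) * Ev th' D (n - a')) *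
      (rf c X a n * rf c' X a' n)| ≤ B +
      3 * ((z : ℝ) ^ 2 * (D : ℝ) ^ 2 * U ^ 2 * (2 * (2 * X * (2 * C0 + 1 + Real.log N)))) +
      2 * (Cτ ^ 4 * U ^ 2 * (N : ℝ) ^ (4 * κ)) * (C0 ^ 2 * (2 * C0 * (4 * (2 * N / y + 1))) +
        2 * (8 * N * BR + 4 * X * (1 + Real.log N)) + 4 * (2 * N + 1) * BR) := by
  have hN0 : (0 : ℝ) < N := by exact_mod_cast (by omega : 0 < N)
  have hlog : 0 ≤ Real.log N := Real.log_natCast_nonneg N
  have hU : 0 ≤ U := (abs_nonneg _).trans (hth.bd 0)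
  set A1 : ℝ := (z : ℝ) ^ 2 * (D : ℝ) ^ 2 * U ^ 2 with hA1
  have hA10 : 0 ≤ A1 := by positivity
  set g : ℤ → ℝ := fun n => nuS lam z n * (Ev th D (n - a) * Ev th' D (n - a')) with hg
  have hg0 : ∀ n, 0 ≤ g n := fun n => mul_nonneg (TaskTT.nuS_nonneg lam z n)
    (mul_nonneg (hp _) (hp' _))
  have hgA : ∀ n, Wt N n * g n ≤ Wt N n * A1 := by
    intro n
    have h1 := G_crude N z D U P lam th th' hl hth hth' a a' n
    have h2 := (le_abs_self _).trans h1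
    have h3 : Wt N n * g n =
      Wt N n * nuS lam z n * (Ev th D (n - a) * Ev th' D (n - a')) := by rw [hg]; ring
    rw [h3]
    exact h2
  have hgA' : ∀ n, g n ≤ A1 := fun n => le_of_mul_le_mul_left (hgA n) (Wt_pos N n)
  set H : ℤ → ℝ := fun n => rf c X a n * rf c' X a' n - Mc c c' D0 X a a' n with hH
  -- summability
  obtain ⟨BM, hBM⟩ : ∃ BM : ℝ, ∀ n, |Mc c c' D0 X a a' n| ≤ BM :=
    ⟨_, fun n => Mc_abs c c' D0 X a a' n⟩
  have hBM0 : 0 ≤ BM := (abs_nonneg _).trans (hBM 0)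
  have hs1 : Summable (fun n : ℤ => Wt N n * (g n * (rf c X a n * rf c' X a' n))) := by
    refine summable_bd N hN _ (A1 * ((X : ℝ) * X)) fun n => ?_
    rw [abs_mul (g n), abs_mul (rf c X a n), abs_of_nonneg (hg0 n)]
    exact mul_le_mul (hgA' n) (mul_le_mul (TaskTT.abs_rf_le c hc.bd X a n)
      (TaskTT.abs_rf_le c' hc'.bd X a' n) (abs_nonneg _) (by positivity)) (by positivity) hA10
  have hs2 : Summable (fun n : ℤ => Wt N n * (g n * Mc c c' D0 X a a' n)) := by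
    refine summable_bd N hN _ (A1 * BM) fun n => ?_
    rw [abs_mul (g n), abs_of_nonneg (hg0 n)]
    exact mul_le_mul (hgA' n) (hBM n) (abs_nonneg _) hA10
  have hsplit : ∑' n : ℤ, Wt N n * nuS lam z n * (Ev th D (n - a) * Ev th' D (n - a')) *
      (rf c X a n * rf c' X a' n) =
      ∑' n : ℤ, Wt N n * nuS lam z n * (Ev th D (n - a) * Ev th' D (n - a')) *
        Mc c c' D0 X a a' n + ∑' n : ℤ, Wt N n * g n * H n := by
    have e1 : ∑' n : ℤ, Wt N n * nuS lam z n * (Ev th D (n - a) * Ev th' D (n - a')) *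
        (rf c X a n * rf c' X a' n) =
        ∑' n : ℤ, Wt N n * (g n * (rf c X a n * rf c' X a' n)) :=
      tsum_congr fun n => by rw [hg]; ring
    have e2 : ∑' n : ℤ, Wt N n * nuS lam z n * (Ev th D (n - a) * Ev th' D (n - a')) *
        Mc c c' D0 X a a' n = ∑' n : ℤ, Wt N n * (g n * Mc c c' D0 X a a' n) :=
      tsum_congr fun n => by rw [hg]; ring
    have e3 : ∑' n : ℤ, Wt N n * g n * H n =
        ∑' n : ℤ, (Wt N n * (g n * (rf c X a n * rf c' X a' n)) -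
          Wt N n * (g n * Mc c c' D0 X a a' n)) :=
      tsum_congr fun n => by rw [hH]; ring
    rw [e1, e2, e3, Summable.tsum_sub hs1 hs2]
    ring
  -- the majorant
  set K1 : ℝ := Cτ ^ 4 * U ^ 2 * (N : ℝ) ^ (4 * κ) with hK1
  have hK10 : 0 ≤ K1 := by positivity
  set K2 : ℝ := A1 * (2 * (2 * X * (2 * C0 + 1 + Real.log N))) with hK2
  have hK20 : 0 ≤ K2 := by positivity
  have hcard : (((rd y (2 * N) (a' - a)).filter Nat.Prime).card : ℝ) ≤ 2 * C0 := by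
    have h1 : (((rd y (2 * N) (a' - a)).filter Nat.Prime).card : ℝ) ≤
        ((rd y (2 * N) (a' - a)).card : ℝ) := by
      exact_mod_cast Finset.card_filter_le _ _
    have h2 := hrc (2 * N) a a' ha haa.symm
    have h3 := x14 N hN0 a' ha'
    nlinarith
  obtain ⟨hMs, hMt⟩ := Maj_sum y hy N X hN hXN C0 BR hC0 a a' hcard hRB
  have hMaj0 : ∀ n, 0 ≤ Maj y N X C0 a a' n := by
    intro n
    unfold Maj
    have hW := (Wt_pos (2 * N) n).le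
    have q1 : 0 ≤ C0 ^ 2 * ∑ l ∈ (rd y (2 * N) (a' - a)).filter Nat.Prime,
        Wt (2 * N) n * II l (n - a) :=
      mul_nonneg (by positivity) (Finset.sum_nonneg fun _ _ => mul_nonneg hW (II_nonneg _ _))
    have q2 : 0 ≤ ∑ d ∈ roughs y X, ∑ d' ∈ (roughs y X).filter (fun d' => ¬ Nat.Coprime d d'),
        1 / (d' : ℝ) * (Wt (2 * N) n * II d (n - a)) :=
      Finset.sum_nonneg fun _ _ => Finset.sum_nonneg fun _ _ =>
        mul_nonneg (by positivity) (mul_nonneg hW (II_nonneg _ _))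
    have q3 : 0 ≤ ∑ d ∈ roughs y X, ∑ d' ∈ (roughs y X).filter (fun d' => ¬ Nat.Coprime d d'),
        1 / (d : ℝ) * (Wt (2 * N) n * II d' (n - a')) :=
      Finset.sum_nonneg fun _ _ => Finset.sum_nonneg fun _ _ =>
        mul_nonneg (by positivity) (mul_nonneg hW (II_nonneg _ _))
    have q4 : 0 ≤ ∑ d ∈ roughs y X, ∑ d' ∈ (roughs y X).filter (fun d' => ¬ Nat.Coprime d d'),
        1 / ((d : ℝ) * d') * (Wt (2 * N) n * II 1 n) :=
      Finset.sum_nonneg fun _ _ => Finset.sum_nonneg fun _ _ =>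
        mul_nonneg (by positivity) (mul_nonneg hW (II_nonneg _ _))
    linarith
  have hpt : ∀ n : ℤ, ‖Wt N n * g n * H n‖ ≤ (if n = 0 then K2 else 0) +
      (if n = a then K2 else 0) + (if n = a' then K2 else 0) + 2 * K1 * Maj y N X C0 a a' n := by
    intro n
    have hif : ∀ b : ℤ, 0 ≤ (if n = b then K2 else 0) := by
      intro b; split_ifs
      · exact hK20
      · exact le_rfl
    have hM1 : 0 ≤ 2 * K1 * Maj y N X C0 a a' n := by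
      have := hMaj0 n
      positivity
    rw [Real.norm_eq_abs, abs_mul, abs_of_nonneg (mul_nonneg (Wt_pos N n).le (hg0 n))]
    by_cases hsp : n = 0 ∨ n = a ∨ n = a'
    · have hnN : |(n : ℝ)| ≤ N := by
        rcases hsp with h | h | h
        · rw [h]; simp
        · rw [h]; exact ha
        · rw [h]; exact ha'
      have h1 : |H n| ≤ 2 * (2 * X * (2 * C0 + 1 + Real.log N)) := by
        have h2 := crude (n := n) (a := a) (a' := a') hc hc' hD hD'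
        have h3 := crude_pt y N X hN hXN C0 hC0 (hrc X) a a' n ha ha' hnN haa
        rw [hH]
        linarith
      have h4 : Wt N n * g n ≤ A1 := by
        calc Wt N n * g n ≤ Wt N n * A1 := hgA n
          _ ≤ 1 * A1 := mul_le_mul_of_nonneg_right (TaskTT.Wt_le_one N n) hA10
          _ = A1 := one_mul _
      have h5 : Wt N n * g n * |H n| ≤ K2 :=
        mul_le_mul h4 h1 (abs_nonneg _) hA10
      have h6 : K2 ≤ (if n = 0 then K2 else 0) + (if n = a then K2 else 0) +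
          (if n = a' then K2 else 0) := by
        have i1 := hif 0
        have i2 := hif a
        have i3 := hif a'
        rcases hsp with h | h | h
        · have : (if n = 0 then K2 else 0) = K2 := if_pos h
          linarith
        · have : (if n = a then K2 else 0) = K2 := if_pos h
          linarith
        · have : (if n = a' then K2 else 0) = K2 := if_pos h
          linarith
      linarith
    · push Not at hsp
      obtain ⟨hn0, hna, hna'⟩ := hsp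
      have h1 : |H n| ≤ Ee y X a a' n := by
        rw [hH]
        exact diff_le hc hc' hD hD' hna hna'
      have h2 : Wt N n * g n ≤ K1 * (1 + |(n : ℝ)| / N) ^ (1 / 2 : ℝ) * Wt N n := by
        have h3 := G_gen κ Cτ hκ hκ8 hCτ hτ N z D hN U P lam th th' hl hth hth' hp hp' a a' n
          ha ha' hn0 hna hna'
        have h4 : Wt N n * g n =
          Wt N n * nuS lam z n * (Ev th D (n - a) * Ev th' D (n - a')) := by rw [hg]; ring
        rw [h4]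
        exact h3
      have h5 := gen_pt y N X hN C0 hC0 (hrc X) a a' n ha ha' haa hna hna' (Wt N n * g n) K1
        hK10 h2
      have h6 : Wt N n * g n * |H n| ≤ Wt N n * g n * Ee y X a a' n :=
        mul_le_mul_of_nonneg_left h1 (mul_nonneg (Wt_pos N n).le (hg0 n))
      have i1 := hif 0
      have i2 := hif a
      have i3 := hif a'
      linarith
  have hsing : ∀ b : ℤ, HasSum (fun n : ℤ => if n = b then K2 else 0) K2 := by
    intro b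
    exact hasSum_ite_eq b K2
  have hsum := (((hsing 0).add (hsing a)).add (hsing a')).add (hMs.hasSum.mul_left (2 * K1))
  have hfin := tsum_of_norm_bounded hsum hpt
  rw [Real.norm_eq_abs] at hfin
  rw [hsplit]
  refine (abs_add_le _ _).trans ?_
  have hlast : 2 * K1 * ∑' n : ℤ, Maj y N X C0 a a' n ≤
      2 * K1 * (C0 ^ 2 * (2 * C0 * (4 * (2 * N / y + 1))) +
        2 * (8 * N * BR + 4 * X * (1 + Real.log N)) + 4 * (2 * N + 1) * BR) :=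
    mul_le_mul_of_nonneg_left hMt (by positivity)
  linarith

/-- the trivial bound -/
theorem triv (N z D X : ℕ) (hN : 1 ≤ N) (hz : z ≤ N) (hDN : D ≤ N) (hX : X ≤ N) (P : Finset ℕ)
    (lam th th' : ℕ → ℝ) (hl : ∀ q, |lam q| ≤ 1) (hth : DW P D (Real.log N) th)
    (hth' : DW P D (Real.log N) th') (c c' : ℕ → ℝ) (hc : ∀ d, |c d| ≤ 1) (hc' : ∀ d, |c' d| ≤ 1)
    (a a' : ℤ) :
    |∑' n : ℤ, Wt N n * nuS lam z n * (Ev th D (n - a) * Ev th' D (n - a')) *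
      (rf c X a n * rf c' X a' n)| ≤ (∑' n : ℤ, Wt N n) * (N : ℝ) ^ 8 := by
  have h1 := (KF.TaskS.summable_Wt N hN).hasSum.mul_right ((N : ℝ) ^ 8)
  rw [← Real.norm_eq_abs]
  refine tsum_of_norm_bounded h1 fun n => ?_
  have hzN : (z : ℝ) ≤ N := by exact_mod_cast hz
  have hDN' : (D : ℝ) ≤ N := by exact_mod_cast hDN
  have hXN : (X : ℝ) ≤ N := by exact_mod_cast hX
  have hN0 : (0 : ℝ) ≤ N := by positivity
  have hlog : 0 ≤ Real.log N := Real.log_natCast_nonneg N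
  have hlogN : Real.log N ≤ N := by
    have := Real.log_le_sub_one_of_pos (by exact_mod_cast hN : (0 : ℝ) < N)
    linarith
  have h2 := G_crude N z D (Real.log N) P lam th th' hl hth hth' a a' n
  have h3 : |rf c X a n| ≤ N := (TaskTT.abs_rf_le c hc X a n).trans hXN
  have h4 : |rf c' X a' n| ≤ N := (TaskTT.abs_rf_le c' hc' X a' n).trans hXN
  rw [Real.norm_eq_abs, abs_mul, abs_mul (rf c X a n)]
  have hW := (Wt_pos N n).le
  calc |Wt N n * nuS lam z n * (Ev th D (n - a) * Ev th' D (n - a'))| *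
      (|rf c X a n| * |rf c' X a' n|)
      ≤ (Wt N n * ((z : ℝ) ^ 2 * (D : ℝ) ^ 2 * Real.log N ^ 2)) * ((N : ℝ) * N) :=
        mul_le_mul h2 (mul_le_mul h3 h4 (abs_nonneg _) hN0) (by positivity) (by positivity)
    _ ≤ (Wt N n * ((N : ℝ) ^ 2 * (N : ℝ) ^ 2 * (N : ℝ) ^ 2)) * ((N : ℝ) * N) := by
        refine mul_le_mul_of_nonneg_right (mul_le_mul_of_nonneg_left ?_ hW) (by positivity)
        refine mul_le_mul (mul_le_mul (pow_le_pow_left₀ (by positivity) hzN 2)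
          (pow_le_pow_left₀ (by positivity) hDN' 2) (by positivity) (by positivity))
          (pow_le_pow_left₀ hlog hlogN 2) (by positivity) (by positivity)
    _ = Wt N n * (N : ℝ) ^ 8 := by ring

/-- **OFD**: the main off-diagonal estimate. -/
theorem OFD (hTTC : St_TTC) (hRC : BX.St_RC) (hRB : BX.St_RB) : St_OFD := by
  intro θ δ hθ0 hθ hδ
  obtain ⟨ε₀, η₁, hε₀, hη₁, hT⟩ := hTTC θ δ hθ0 hθ hδ
  have hθ1 : 0 < 1 - θ := by linarith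
  obtain ⟨η₀, hη₀, hm1, hm2, hm3, hm4⟩ : ∃ η₀ : ℝ, 0 < η₀ ∧ η₀ ≤ 1 / 40 ∧ η₀ ≤ ε₀ / 5 ∧
      η₀ ≤ η₁ / 20 ∧ η₀ ≤ (1 - θ) / 20 := by
    refine ⟨min (min (1 / 40) (ε₀ / 5)) (min (η₁ / 20) ((1 - θ) / 20)), ?_, ?_, ?_, ?_, ?_⟩
    · exact lt_min (lt_min (by norm_num) (by positivity)) (lt_min (by positivity) (by positivity))
    · exact (min_le_left _ _).trans (min_le_left _ _)
    · exact (min_le_left _ _).trans (min_le_right _ _)
    · exact (min_le_right _ _).trans (min_le_left _ _)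
    · exact (min_le_right _ _).trans (min_le_right _ _)
  refine ⟨ε₀, η₀, hε₀, hη₀, hm1, ?_⟩
  intro ε₁ hε₁ hε₁1
  have hε : 0 < ε₁ / 2 := by positivity
  obtain ⟨C₁, hC₁, hT'⟩ := hT (ε₁ / 2) hε
  obtain ⟨N₁, C0, hC0, hrc⟩ := hRC (ε₁ / 2) hε
  obtain ⟨C₃, hC₃, hRB'⟩ := hRB (ε₁ / 2) hε
  obtain ⟨κ, hκ, hk1, hk2, hk3, hk4⟩ : ∃ κ : ℝ, 0 < κ ∧ κ ≤ ε₁ / 64 ∧ κ ≤ 1 / 16 ∧
      κ ≤ (1 - θ) / 32 ∧ κ ≤ η₁ / 16 := by
    refine ⟨min (min (ε₁ / 64) (1 / 16)) (min ((1 - θ) / 32) (η₁ / 16)), ?_, ?_, ?_, ?_, ?_⟩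
    · exact lt_min (lt_min (by positivity) (by norm_num)) (lt_min (by positivity) (by positivity))
    · exact (min_le_left _ _).trans (min_le_left _ _)
    · exact (min_le_left _ _).trans (min_le_right _ _)
    · exact (min_le_right _ _).trans (min_le_left _ _)
    · exact (min_le_right _ _).trans (min_le_right _ _)
  obtain ⟨Cτ, hCτ, hτ⟩ := Pool.Agent.H510R2.divisor_bound κ hκ
  obtain ⟨N₂, hN₂⟩ : ∃ N₂ : ℕ, ∀ N : ℕ, N₂ ≤ N → (2 : ℝ) < (N : ℝ) ^ ε₁ := by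
    have h := ((tendsto_rpow_atTop hε₁).comp tendsto_natCast_atTop_atTop).eventually
      (Filter.eventually_gt_atTop (2 : ℝ))
    obtain ⟨N₃, h3⟩ := Filter.eventually_atTop.1 h
    exact ⟨N₃, fun N hN => h3 N hN⟩
  obtain ⟨η, hη, hh1, hh2, hh3⟩ : ∃ η : ℝ, 0 < η ∧ η ≤ η₁ / 2 ∧ η ≤ ε₁ / 8 ∧ η ≤ (1 - θ) / 2 := by
    refine ⟨min (η₁ / 2) (min (ε₁ / 8) ((1 - θ) / 2)), ?_, ?_, ?_, ?_⟩
    · exact lt_min (by positivity) (lt_min (by positivity) (by positivity))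
    · exact min_le_left _ _
    · exact (min_le_right _ _).trans (min_le_left _ _)
    · exact (min_le_right _ _).trans (min_le_right _ _)
  set N₀ := max N₁ N₂ with hN₀
  set Bs : ℝ := ∑ N ∈ range N₀, (∑' n : ℤ, Wt N n) * (N : ℝ) ^ 8 with hBs
  have hWs : ∀ N : ℕ, 0 ≤ (∑' n : ℤ, Wt N n) * (N : ℝ) ^ 8 := fun N =>
    mul_nonneg (tsum_nonneg fun n => (Wt_pos N n).le) (by positivity)
  have hBs0 : 0 ≤ Bs := Finset.sum_nonneg fun N _ => hWs N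
  set Cb : ℝ := C₁ / κ ^ 2 + 12 * (2 * C0 + 1 + 1 / κ) / κ ^ 2 +
    2 * (Cτ ^ 4 / κ ^ 2) * (24 * C0 ^ 3 + 28 * C₃ + 8 * (1 + 1 / κ)) with hCb
  have hCb0 : 0 < Cb := by positivity
  refine ⟨η, Bs + Cb, hη, by positivity, ?_⟩
  intro N z D D0 X hN hzN hzε hDN hXθ hD0 hXD lam hlam P hP th th' hth hth' hp hp' a a' ha ha'
    ha0 ha0' haa c c' hc hc' hcB hcB'
  have hN0 : (0 : ℝ) < N := by exact_mod_cast (by omega : 0 < N)
  have hN1 : (1 : ℝ) ≤ N := by exact_mod_cast (by omega : 1 ≤ N)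
  have hN1' : 1 ≤ N := by omega
  have hNle : ∀ s t : ℝ, s ≤ t → (N : ℝ) ^ s ≤ (N : ℝ) ^ t := fun s t hst =>
    Real.rpow_le_rpow_of_exponent_le hN1 hst
  have hleN : ∀ (k : ℕ) (s : ℝ), s ≤ 1 → (k : ℝ) ≤ (N : ℝ) ^ s → k ≤ N := by
    intro k s hs hk
    have h1 : (k : ℝ) ≤ N := by
      calc (k : ℝ) ≤ (N : ℝ) ^ s := hk
        _ ≤ (N : ℝ) ^ (1 : ℝ) := hNle _ _ hs
        _ = N := Real.rpow_one _
    exact_mod_cast h1
  have hzN' : z ≤ N := hleN z η₀ (by linarith) hzN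
  have hDN' : D ≤ N := hleN D η₀ (by linarith) hDN
  have hXN' : X ≤ N := hleN X θ (by linarith) hXθ
  have hNη : (1 : ℝ) ≤ (N : ℝ) ^ (1 - η) := Real.one_le_rpow hN1 (by linarith)
  by_cases hsmall : N < N₀
  · -- small N
    have h1 := triv N z D X hN1' hzN' hDN' hXN' P lam th th' hlam.sw.bd hth hth' c c' hc.bd
      hc'.bd a a'
    have h2 : (∑' n : ℤ, Wt N n) * (N : ℝ) ^ 8 ≤ Bs :=
      Finset.single_le_sum (f := fun N : ℕ => (∑' n : ℤ, Wt N n) * (N : ℝ) ^ 8)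
        (fun N _ => hWs N) (Finset.mem_range.2 hsmall)
    calc _ ≤ Bs := h1.trans h2
      _ ≤ Bs + Cb := by linarith
      _ ≤ (Bs + Cb) * (N : ℝ) ^ (1 - η) := le_mul_of_one_le_right (by positivity) hNη
  push Not at hsmall
  have hNN1 : N₁ ≤ N := (le_max_left _ _).trans hsmall
  have hNN2 : N₂ ≤ N := (le_max_right _ _).trans hsmall
  have hNε : (2 : ℝ) < (N : ℝ) ^ ε₁ := hN₂ N hNN2
  have haN : |(a : ℝ)| ≤ N := ha.trans (by
    have : 0 ≤ (N : ℝ) ^ (1 / 2 : ℝ) := by positivity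
    linarith)
  have haN' : |(a' : ℝ)| ≤ N := ha'.trans (by
    have : 0 ≤ (N : ℝ) ^ (1 / 2 : ℝ) := by positivity
    linarith)
  have hlogpos : 0 < Real.log N := Real.log_pos (by exact_mod_cast (by omega : 1 < N))
  -- prime factors of the moduli
  have hpf : ∀ d : ℕ, Bl N θ δ ε₁ D0 X d → ∀ p : ℕ, p.Prime → p ∣ d → (N : ℝ) ^ ε₁ ≤ p := by
    intro d hd p hpp hpd
    have h1 := hd.2.2.2.1 p hpp hpd
    have hp0 : (0 : ℝ) < p := by exact_mod_cast hpp.pos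
    unfold tt at h1
    rw [le_div_iff₀ hlogpos] at h1
    rw [Real.rpow_def_of_pos hN0, ← Real.exp_log hp0]
    exact Real.exp_le_exp.2 (by linarith)
  -- the coprime pairs
  have hcop : |∑' n : ℤ, Wt N n * nuS lam z n * (Ev th D (n - a) * Ev th' D (n - a')) *
      Mc c c' D0 X a a' n| ≤
      (z : ℝ) ^ 2 * (D : ℝ) ^ 2 * Real.log N ^ 2 * (C₁ * (N : ℝ) ^ (1 - η₁)) := by
    refine cop_part N z D D0 X hN1' (Real.log N) (C₁ * (N : ℝ) ^ (1 - η₁)) hlogpos.le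
      (by positivity) lam th th' hlam.sw.bd hth.bd hth'.bd a a' c c' ?_
    intro q₁ hq₁ q₂ hq₂ k hk k' hk' hl₁ hl₂ hk0 hk0' b hb
    obtain ⟨h11, h12, h13⟩ := hlam.sw.supp q₁ hl₁
    obtain ⟨h21, h22, h23⟩ := hlam.sw.supp q₂ hl₂
    have hs1 := hlam.sqf q₁ hl₁
    have hs2 := hlam.sqf q₂ hl₂
    obtain ⟨hk1s, hk1D, hk1P⟩ := hth.supp k hk0
    obtain ⟨hk2s, hk2D, hk2P⟩ := hth'.supp k' hk0'
    set Q := Nat.lcm (Nat.lcm q₁ q₂) (Nat.lcm k k') with hQ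
    have hQs : Squarefree Q := sqf_lcm (sqf_lcm hs1 hs2) (sqf_lcm hk1s hk2s)
    have hQ1 : 1 ≤ Q := Nat.one_le_iff_ne_zero.2 hQs.ne_zero
    have hQd : Q ∣ (q₁ * q₂) * (k * k') :=
      (Nat.lcm_dvd_mul _ _).trans (mul_dvd_mul (Nat.lcm_dvd_mul q₁ q₂) (Nat.lcm_dvd_mul k k'))
    -- prime factors of Q
    have hQp : ∀ p : ℕ, p.Prime → p ∣ Q → 2 < p ∧ (p : ℝ) < (N : ℝ) ^ ε₁ := by
      intro p hpp hpQ
      have hz' : ∀ q : ℕ, 1 ≤ q → q ≤ z → Odd q → p ∣ q → 2 < p ∧ (p : ℝ) < (N : ℝ) ^ ε₁ := by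
        intro q hq1 hqz hqo hpq
        refine ⟨?_, ?_⟩
        · have h2 : p ≠ 2 := by
            intro h
            rw [h] at hpq
            exact (Nat.not_even_iff_odd.2 hqo) (even_iff_two_dvd.2 hpq)
          have := hpp.two_le
          omega
        · have h3 : p ≤ z := (Nat.le_of_dvd (by omega) hpq).trans hqz
          have h4 : (p : ℝ) ≤ z := by exact_mod_cast h3
          linarith
      rcases (Nat.Prime.dvd_mul hpp).1 (hpQ.trans hQd) with h | h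
      · rcases (Nat.Prime.dvd_mul hpp).1 h with h | h
        · exact hz' q₁ h11 h12 h13 h
        · exact hz' q₂ h21 h22 h23 h
      · rcases (Nat.Prime.dvd_mul hpp).1 h with h | h
        · exact (hP p (hk1P p hpp h)).2
        · exact (hP p (hk2P p hpp h)).2
    have hQodd : Odd Q := by
      rw [← Nat.not_even_iff_odd]
      intro he
      have := (hQp 2 Nat.prime_two (even_iff_two_dvd.1 he)).1
      omega
    have hQle : (Q : ℝ) ≤ (N : ℝ) ^ ε₀ := by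
      have h1 : Q ≤ (q₁ * q₂) * (k * k') := Nat.le_of_dvd (by
        have : 0 < k := Nat.pos_of_ne_zero hk1s.ne_zero
        have : 0 < k' := Nat.pos_of_ne_zero hk2s.ne_zero
        positivity) hQd
      have h2 : (Q : ℝ) ≤ (q₁ * q₂) * (k * k') := by exact_mod_cast h1
      have g1 : (q₁ : ℝ) ≤ (N : ℝ) ^ η₀ := (by exact_mod_cast h12 : (q₁ : ℝ) ≤ z).trans hzN
      have g2 : (q₂ : ℝ) ≤ (N : ℝ) ^ η₀ := (by exact_mod_cast h22 : (q₂ : ℝ) ≤ z).trans hzN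
      have g3 : (k : ℝ) ≤ (N : ℝ) ^ η₀ := (by exact_mod_cast hk1D : (k : ℝ) ≤ D).trans hDN
      have g4 : (k' : ℝ) ≤ (N : ℝ) ^ η₀ := (by exact_mod_cast hk2D : (k' : ℝ) ≤ D).trans hDN
      calc (Q : ℝ) ≤ (q₁ * q₂) * (k * k') := h2
        _ ≤ ((N : ℝ) ^ η₀ * (N : ℝ) ^ η₀) * ((N : ℝ) ^ η₀ * (N : ℝ) ^ η₀) := by gcongr
        _ = (N : ℝ) ^ (η₀ + η₀ + (η₀ + η₀)) := by
            rw [Real.rpow_add hN0, Real.rpow_add hN0]
        _ ≤ (N : ℝ) ^ ε₀ := hNle _ _ (by linarith)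
    have hcopr : ∀ d : ℕ, Bl N θ δ ε₁ D0 X d → Nat.Coprime d (2 * Q) := by
      intro d hd
      refine Nat.Coprime.symm (Nat.coprime_of_dvd ?_)
      intro p hpp hp1 hp2
      have h1 := hpf d hd p hpp hp2
      rcases (Nat.Prime.dvd_mul hpp).1 hp1 with h2 | h2
      · have h3 : p ≤ 2 := Nat.le_of_dvd (by norm_num) h2
        have h4 : (p : ℝ) ≤ 2 := by exact_mod_cast h3
        linarith
      · have := (hQp p hpp h2).2
        linarith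
    have hcO : CofO Q c := ⟨hc.bd, fun d hd => hcopr d (hcB d hd)⟩
    have hcO' : CofO Q c' := ⟨hc'.bd, fun d hd => hcopr d (hcB' d hd)⟩
    have hFc : Fc N θ δ c c' := by
      by_cases hth51 : θ ≤ 51 / 100
      · exact Or.inl hth51
      · refine Or.inr ⟨fun d hd => ?_, fun d hd => ?_⟩
        · exact (hcB d hd).2.2.2.2.resolve_left hth51
        · exact (hcB' d hd).2.2.2.2.resolve_left hth51
    exact hT' N Q D0 X hN hQ1 hQodd hQs hQle hXθ hD0 hXD b a a' hb ha ha' haa c c' hcO hcO' hc hc'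
      hFc
  -- the other terms
  have hRBX : ∑ d ∈ roughs ((N : ℝ) ^ (ε₁ / 2)) X,
      ∑ d' ∈ (roughs ((N : ℝ) ^ (ε₁ / 2)) X).filter (fun d' => ¬ Nat.Coprime d d'),
        1 / ((d : ℝ) * d') ≤ C₃ * (N : ℝ) ^ (-(ε₁ / 2 / 2)) := by
    have hsub : roughs ((N : ℝ) ^ (ε₁ / 2)) X ⊆ roughs ((N : ℝ) ^ (ε₁ / 2)) N := by
      intro d hd
      rw [mem_roughs] at hd ⊢
      exact ⟨⟨hd.1.1, hd.1.2.trans hXN'⟩, hd.2⟩
    refine le_trans ?_ (hRB' N hN)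
    calc ∑ d ∈ roughs ((N : ℝ) ^ (ε₁ / 2)) X,
          ∑ d' ∈ (roughs ((N : ℝ) ^ (ε₁ / 2)) X).filter (fun d' => ¬ Nat.Coprime d d'),
            1 / ((d : ℝ) * d')
        ≤ ∑ d ∈ roughs ((N : ℝ) ^ (ε₁ / 2)) X,
          ∑ d' ∈ (roughs ((N : ℝ) ^ (ε₁ / 2)) N).filter (fun d' => ¬ Nat.Coprime d d'),
            1 / ((d : ℝ) * d') := by
          refine Finset.sum_le_sum fun d _ => ?_
          exact Finset.sum_le_sum_of_subset_of_nonneg (Finset.filter_subset_filter _ hsub)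
            fun _ _ _ => by positivity
      _ ≤ _ := Finset.sum_le_sum_of_subset_of_nonneg hsub
            fun _ _ _ => Finset.sum_nonneg fun _ _ => by positivity
  have htot := total N z D D0 X hN1' hXN' ((N : ℝ) ^ (ε₁ / 2)) (by positivity) (Real.log N) P
    lam th th' hlam.sw.bd hth hth' hp hp' a a' haN haN' haa c c' hc hc'
    (fun d hd => (hcB d hd).2.1) (fun d hd => (hcB' d hd).2.1) C0 hC0
    (fun X a n ha hn => hrc N X hNN1 a n ha hn) _ hRBX κ Cτ hκ (by linarith) hCτ hτ _ hcop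
  refine htot.trans ?_
  -- exponents
  have hU : Real.log N ≤ (N : ℝ) ^ κ / κ := Real.log_le_rpow_div hN0.le hκ
  set U := Real.log N with hUdef
  have hU2 : U ^ 2 ≤ (N : ℝ) ^ (2 * κ) / κ ^ 2 := by
    calc U ^ 2 ≤ ((N : ℝ) ^ κ / κ) ^ 2 := pow_le_pow_left₀ hlogpos.le hU 2
      _ = (N : ℝ) ^ (2 * κ) / κ ^ 2 := by
        rw [div_pow, ← Real.rpow_natCast, ← Real.rpow_mul hN0.le]
        push_cast
        rw [mul_comm κ 2]
  have hz2 : (z : ℝ) ^ 2 ≤ (N : ℝ) ^ (2 * η₀) := by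
    calc (z : ℝ) ^ 2 ≤ ((N : ℝ) ^ η₀) ^ 2 := pow_le_pow_left₀ (by positivity) hzN 2
      _ = (N : ℝ) ^ (2 * η₀) := by
        rw [← Real.rpow_natCast, ← Real.rpow_mul hN0.le]
        push_cast
        rw [mul_comm η₀ 2]
  have hD2 : (D : ℝ) ^ 2 ≤ (N : ℝ) ^ (2 * η₀) := by
    calc (D : ℝ) ^ 2 ≤ ((N : ℝ) ^ η₀) ^ 2 := pow_le_pow_left₀ (by positivity) hDN 2
      _ = (N : ℝ) ^ (2 * η₀) := by
        rw [← Real.rpow_natCast, ← Real.rpow_mul hN0.le]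
        push_cast
        rw [mul_comm η₀ 2]
  have hA1 : (z : ℝ) ^ 2 * (D : ℝ) ^ 2 * U ^ 2 ≤ (N : ℝ) ^ (4 * η₀ + 2 * κ) / κ ^ 2 := by
    calc (z : ℝ) ^ 2 * (D : ℝ) ^ 2 * U ^ 2 ≤
        (N : ℝ) ^ (2 * η₀) * (N : ℝ) ^ (2 * η₀) * ((N : ℝ) ^ (2 * κ) / κ ^ 2) := by gcongr
      _ = (N : ℝ) ^ (4 * η₀ + 2 * κ) / κ ^ 2 := by
        rw [mul_div_assoc', ← Real.rpow_add hN0, ← Real.rpow_add hN0]
        congr 2
        ring
  have hK1 : Cτ ^ 4 * U ^ 2 * (N : ℝ) ^ (4 * κ) ≤ Cτ ^ 4 / κ ^ 2 * (N : ℝ) ^ (6 * κ) := by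
    calc Cτ ^ 4 * U ^ 2 * (N : ℝ) ^ (4 * κ) ≤
        Cτ ^ 4 * ((N : ℝ) ^ (2 * κ) / κ ^ 2) * (N : ℝ) ^ (4 * κ) := by gcongr
      _ = Cτ ^ 4 / κ ^ 2 * ((N : ℝ) ^ (2 * κ) * (N : ℝ) ^ (4 * κ)) := by ring
      _ = Cτ ^ 4 / κ ^ 2 * (N : ℝ) ^ (6 * κ) := by
        rw [← Real.rpow_add hN0]
        congr 2
        ring
  have hNk1 : (1 : ℝ) ≤ (N : ℝ) ^ κ := Real.one_le_rpow hN1 hκ.le
  -- term 1
  have t1 : (z : ℝ) ^ 2 * (D : ℝ) ^ 2 * U ^ 2 * (C₁ * (N : ℝ) ^ (1 - η₁)) ≤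
      C₁ / κ ^ 2 * (N : ℝ) ^ (1 - η) := by
    calc (z : ℝ) ^ 2 * (D : ℝ) ^ 2 * U ^ 2 * (C₁ * (N : ℝ) ^ (1 - η₁)) ≤
        (N : ℝ) ^ (4 * η₀ + 2 * κ) / κ ^ 2 * (C₁ * (N : ℝ) ^ (1 - η₁)) :=
          mul_le_mul_of_nonneg_right hA1 (by positivity)
      _ = C₁ / κ ^ 2 * ((N : ℝ) ^ (4 * η₀ + 2 * κ) * (N : ℝ) ^ (1 - η₁)) := by ring
      _ ≤ C₁ / κ ^ 2 * (N : ℝ) ^ (1 - η) := by
          rw [← Real.rpow_add hN0]
          exact mul_le_mul_of_nonneg_left (hNle _ _ (by linarith)) (by positivity)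
  -- term 2
  have hlin : 2 * C0 + 1 + U ≤ (2 * C0 + 1 + 1 / κ) * (N : ℝ) ^ κ := by
    have h1 : U ≤ 1 / κ * (N : ℝ) ^ κ := by
      rw [one_div, inv_mul_eq_div]; exact hU
    have h2 : 2 * C0 + 1 ≤ (2 * C0 + 1) * (N : ℝ) ^ κ :=
      le_mul_of_one_le_right (by positivity) hNk1
    have h3 : (2 * C0 + 1 + 1 / κ) * (N : ℝ) ^ κ =
        (2 * C0 + 1) * (N : ℝ) ^ κ + 1 / κ * (N : ℝ) ^ κ := by ring
    linarith
  have hlin1 : 1 + U ≤ (1 + 1 / κ) * (N : ℝ) ^ κ := by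
    have h1 : U ≤ 1 / κ * (N : ℝ) ^ κ := by
      rw [one_div, inv_mul_eq_div]; exact hU
    have h3 : (1 + 1 / κ) * (N : ℝ) ^ κ = (N : ℝ) ^ κ + 1 / κ * (N : ℝ) ^ κ := by ring
    linarith
  have t2 : 3 * ((z : ℝ) ^ 2 * (D : ℝ) ^ 2 * U ^ 2 * (2 * (2 * X * (2 * C0 + 1 + U)))) ≤
      12 * (2 * C0 + 1 + 1 / κ) / κ ^ 2 * (N : ℝ) ^ (1 - η) := by
    calc 3 * ((z : ℝ) ^ 2 * (D : ℝ) ^ 2 * U ^ 2 * (2 * (2 * X * (2 * C0 + 1 + U)))) ≤
        3 * ((N : ℝ) ^ (4 * η₀ + 2 * κ) / κ ^ 2 *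
          (2 * (2 * (N : ℝ) ^ θ * ((2 * C0 + 1 + 1 / κ) * (N : ℝ) ^ κ)))) := by
          refine mul_le_mul_of_nonneg_left ?_ (by norm_num)
          refine mul_le_mul hA1 ?_ (by positivity) (by positivity)
          refine mul_le_mul_of_nonneg_left ?_ (by norm_num)
          refine mul_le_mul ?_ hlin (by positivity) (by positivity)
          exact mul_le_mul_of_nonneg_left hXθ (by norm_num)
      _ = 12 * (2 * C0 + 1 + 1 / κ) / κ ^ 2 *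
          ((N : ℝ) ^ (4 * η₀ + 2 * κ) * (N : ℝ) ^ θ * (N : ℝ) ^ κ) := by ring
      _ ≤ 12 * (2 * C0 + 1 + 1 / κ) / κ ^ 2 * (N : ℝ) ^ (1 - η) := by
          rw [← Real.rpow_add hN0, ← Real.rpow_add hN0]
          exact mul_le_mul_of_nonneg_left (hNle _ _ (by linarith)) (by positivity)
  -- term 3
  have hNy : (N : ℝ) / (N : ℝ) ^ (ε₁ / 2) = (N : ℝ) ^ (1 - ε₁ / 2) := by
    rw [Real.rpow_sub hN0, Real.rpow_one]
  have hNB : (N : ℝ) * (N : ℝ) ^ (-(ε₁ / 2 / 2)) = (N : ℝ) ^ (1 - ε₁ / 4) := by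
    have h1 : (N : ℝ) ^ (1 - ε₁ / 4) = (N : ℝ) ^ (1 : ℝ) * (N : ℝ) ^ (-(ε₁ / 2 / 2)) := by
      rw [← Real.rpow_add hN0]
      congr 1
      ring
    rw [h1, Real.rpow_one]
  have g1 : (N : ℝ) ^ (6 * κ) * (N : ℝ) ^ (1 - ε₁ / 2) ≤ (N : ℝ) ^ (1 - η) := by
    rw [← Real.rpow_add hN0]
    exact hNle _ _ (by linarith)
  have g2 : (N : ℝ) ^ (6 * κ) ≤ (N : ℝ) ^ (1 - η) := hNle _ _ (by linarith)
  have g3 : (N : ℝ) ^ (6 * κ) * (N : ℝ) ^ (1 - ε₁ / 4) ≤ (N : ℝ) ^ (1 - η) := by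
    rw [← Real.rpow_add hN0]
    exact hNle _ _ (by linarith)
  have g4 : (N : ℝ) ^ (6 * κ) * (X * (1 + U)) ≤ (1 + 1 / κ) * (N : ℝ) ^ (1 - η) := by
    calc (N : ℝ) ^ (6 * κ) * (X * (1 + U)) ≤
        (N : ℝ) ^ (6 * κ) * ((N : ℝ) ^ θ * ((1 + 1 / κ) * (N : ℝ) ^ κ)) := by
          refine mul_le_mul_of_nonneg_left ?_ (by positivity)
          exact mul_le_mul hXθ hlin1 (by positivity) (by positivity)
      _ = (1 + 1 / κ) * ((N : ℝ) ^ (6 * κ) * (N : ℝ) ^ θ * (N : ℝ) ^ κ) := by ring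
      _ ≤ (1 + 1 / κ) * (N : ℝ) ^ (1 - η) := by
          rw [← Real.rpow_add hN0, ← Real.rpow_add hN0]
          exact mul_le_mul_of_nonneg_left (hNle _ _ (by linarith)) (by positivity)
  set BR : ℝ := C₃ * (N : ℝ) ^ (-(ε₁ / 2 / 2)) with hBR
  have hBR0 : 0 ≤ BR := by positivity
  have hNBR : (N : ℝ) * BR = C₃ * (N : ℝ) ^ (1 - ε₁ / 4) := by
    rw [hBR, ← hNB]; ring
  have t3 : 2 * (Cτ ^ 4 * U ^ 2 * (N : ℝ) ^ (4 * κ)) *
      (C0 ^ 2 * (2 * C0 * (4 * (2 * N / (N : ℝ) ^ (ε₁ / 2) + 1))) +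
        2 * (8 * N * BR + 4 * X * (1 + U)) + 4 * (2 * N + 1) * BR) ≤
      2 * (Cτ ^ 4 / κ ^ 2) * (24 * C0 ^ 3 + 28 * C₃ + 8 * (1 + 1 / κ)) * (N : ℝ) ^ (1 - η) := by
    have h1 : C0 ^ 2 * (2 * C0 * (4 * (2 * N / (N : ℝ) ^ (ε₁ / 2) + 1))) +
        2 * (8 * N * BR + 4 * X * (1 + U)) + 4 * (2 * N + 1) * BR ≤
        16 * C0 ^ 3 * (N : ℝ) ^ (1 - ε₁ / 2) + 8 * C0 ^ 3 +
          28 * C₃ * (N : ℝ) ^ (1 - ε₁ / 4) + 8 * (X * (1 + U)) := by
      have e1 : 2 * (N : ℝ) / (N : ℝ) ^ (ε₁ / 2) = 2 * (N : ℝ) ^ (1 - ε₁ / 2) := by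
        rw [mul_div_assoc, hNy]
      have e2 : BR ≤ N * BR := le_mul_of_one_le_left hBR0 hN1
      rw [e1]
      have e3 : C0 ^ 2 * (2 * C0 * (4 * (2 * (N : ℝ) ^ (1 - ε₁ / 2) + 1))) =
          16 * C0 ^ 3 * (N : ℝ) ^ (1 - ε₁ / 2) + 8 * C0 ^ 3 := by ring
      have e4 : 2 * (8 * N * BR + 4 * X * (1 + U)) + 4 * (2 * N + 1) * BR =
          24 * (N * BR) + 4 * BR + 8 * (X * (1 + U)) := by ring
      rw [e3, add_assoc, e4]
      linarith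
    have h2 : 0 ≤ 16 * C0 ^ 3 * (N : ℝ) ^ (1 - ε₁ / 2) + 8 * C0 ^ 3 +
          28 * C₃ * (N : ℝ) ^ (1 - ε₁ / 4) + 8 * (X * (1 + U)) := by positivity
    have h3 : 0 ≤ Cτ ^ 4 * U ^ 2 * (N : ℝ) ^ (4 * κ) := by positivity
    calc 2 * (Cτ ^ 4 * U ^ 2 * (N : ℝ) ^ (4 * κ)) *
      (C0 ^ 2 * (2 * C0 * (4 * (2 * N / (N : ℝ) ^ (ε₁ / 2) + 1))) +
        2 * (8 * N * BR + 4 * X * (1 + U)) + 4 * (2 * N + 1) * BR)
        ≤ 2 * (Cτ ^ 4 * U ^ 2 * (N : ℝ) ^ (4 * κ)) *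
          (16 * C0 ^ 3 * (N : ℝ) ^ (1 - ε₁ / 2) + 8 * C0 ^ 3 +
          28 * C₃ * (N : ℝ) ^ (1 - ε₁ / 4) + 8 * (X * (1 + U))) :=
          mul_le_mul_of_nonneg_left h1 (by positivity)
      _ ≤ 2 * (Cτ ^ 4 / κ ^ 2 * (N : ℝ) ^ (6 * κ)) *
          (16 * C0 ^ 3 * (N : ℝ) ^ (1 - ε₁ / 2) + 8 * C0 ^ 3 +
          28 * C₃ * (N : ℝ) ^ (1 - ε₁ / 4) + 8 * (X * (1 + U))) := by
          refine mul_le_mul_of_nonneg_right ?_ h2
          linarith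
      _ = 2 * (Cτ ^ 4 / κ ^ 2) *
          (16 * C0 ^ 3 * ((N : ℝ) ^ (6 * κ) * (N : ℝ) ^ (1 - ε₁ / 2)) +
          8 * C0 ^ 3 * (N : ℝ) ^ (6 * κ) +
          28 * C₃ * ((N : ℝ) ^ (6 * κ) * (N : ℝ) ^ (1 - ε₁ / 4)) +
          8 * ((N : ℝ) ^ (6 * κ) * (X * (1 + U)))) := by ring
      _ ≤ 2 * (Cτ ^ 4 / κ ^ 2) *
          (16 * C0 ^ 3 * (N : ℝ) ^ (1 - η) + 8 * C0 ^ 3 * (N : ℝ) ^ (1 - η) +
          28 * C₃ * (N : ℝ) ^ (1 - η) + 8 * ((1 + 1 / κ) * (N : ℝ) ^ (1 - η))) := by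
          refine mul_le_mul_of_nonneg_left ?_ (by positivity)
          have i1 := mul_le_mul_of_nonneg_left g1 (by positivity : 0 ≤ 16 * C0 ^ 3)
          have i2 := mul_le_mul_of_nonneg_left g2 (by positivity : 0 ≤ 8 * C0 ^ 3)
          have i3 := mul_le_mul_of_nonneg_left g3 (by positivity : 0 ≤ 28 * C₃)
          linarith
      _ = _ := by ring
  have hsum := add_le_add (add_le_add t1 t2) t3
  refine hsum.trans ?_
  have hfin : C₁ / κ ^ 2 * (N : ℝ) ^ (1 - η) +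
      12 * (2 * C0 + 1 + 1 / κ) / κ ^ 2 * (N : ℝ) ^ (1 - η) +
      2 * (Cτ ^ 4 / κ ^ 2) * (24 * C0 ^ 3 + 28 * C₃ + 8 * (1 + 1 / κ)) * (N : ℝ) ^ (1 - η) =
      Cb * (N : ℝ) ^ (1 - η) := by
    rw [hCb]; ring
  rw [hfin]
  exact mul_le_mul_of_nonneg_right (by linarith) (by positivity)

end Pool.Agent.W372.PL
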