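import Pool.Agent.W23.PL.Defs
import Pool.Agent.H442R2.KF.Summ
import Pool.Agent.H442R2.BX.Ex
import Pool.Agent.H442R2.BX.Tt

/-!
PL project, task OFD, part 1 (helper372): expansion of the weight and the coprime pairs.
-/

namespace Pool.Agent.W372.PL

open Finset
open Pool.Agent.H442R2
open Pool.Agent.H442R2.KF
open Pool.Agent.H442R2.BX
open Pool.Agent.H442R2.BX.TaskEX
open Pool.Agent.W23.DC
open Pool.Agent.W23.PL

theorem Ev_eq (th : ℕ → ℝ) (D : ℕ) (m : ℤ) : Ev th D m = ∑ k ∈ Icc 1 D, th k * II k m := by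
  unfold Ev II
  refine Finset.sum_congr rfl fun k _ => ?_
  by_cases h : (k : ℤ) ∣ m <;> simp [h]

theorem II3 (q k k' : ℕ) (a a' n : ℤ) : II q n * II k (n - a) * II k' (n - a') =
    if ((q : ℤ) ∣ n ∧ (k : ℤ) ∣ n - a ∧ (k' : ℤ) ∣ n - a') then 1 else 0 := by
  unfold II
  by_cases h1 : (q : ℤ) ∣ n <;> by_cases h2 : (k : ℤ) ∣ n - a <;>
    by_cases h3 : (k' : ℤ) ∣ n - a' <;> simp [h1, h2, h3]

/-- the product of the indicators is zero or the indicator of a residue class -/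
theorem class_or (q k k' : ℕ) (hq : 1 ≤ q) (hk : 1 ≤ k) (hk' : 1 ≤ k') (a a' : ℤ) :
    (∀ n : ℤ, II q n * II k (n - a) * II k' (n - a') = 0) ∨
    ∃ b : ℤ, |(b : ℝ)| ≤ (Nat.lcm q (Nat.lcm k k') : ℝ) ∧
      ∀ n : ℤ, II q n * II k (n - a) * II k' (n - a') = II (Nat.lcm q (Nat.lcm k k')) (n - b) := by
  by_cases h : ∃ n0 : ℤ, (q : ℤ) ∣ n0 ∧ (k : ℤ) ∣ n0 - a ∧ (k' : ℤ) ∣ n0 - a'
  · right
    obtain ⟨n0, h1, h2, h3⟩ := h
    set Q := Nat.lcm q (Nat.lcm k k') with hQ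
    have hQ0 : 0 < Q := Nat.lcm_pos (by omega) (Nat.lcm_pos (by omega) (by omega))
    have hQ0' : (0 : ℤ) < (Q : ℤ) := by exact_mod_cast hQ0
    refine ⟨n0 % (Q : ℤ), ?_, ?_⟩
    · have e1 := Int.emod_nonneg n0 hQ0'.ne'
      have e2 := Int.emod_lt_of_pos n0 hQ0'
      rw [abs_of_nonneg (by exact_mod_cast e1)]
      exact_mod_cast e2.le
    · intro n
      rw [II3]
      unfold II
      have hiff : ((q : ℤ) ∣ n ∧ (k : ℤ) ∣ n - a ∧ (k' : ℤ) ∣ n - a') ↔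
          (Q : ℤ) ∣ n - n0 % (Q : ℤ) := by
        have e3 : (Q : ℤ) ∣ n0 - n0 % (Q : ℤ) := Int.dvd_self_sub_emod
        have e4 : (Q : ℤ) ∣ n - n0 % (Q : ℤ) ↔ (Q : ℤ) ∣ n - n0 := by
          have e5 : n - n0 % (Q : ℤ) = (n - n0) + (n0 - n0 % (Q : ℤ)) := by ring
          rw [e5]
          exact (dvd_add_left e3)
        have e6 : (Q : ℤ) ∣ n - n0 ↔ (q : ℤ) ∣ n - n0 ∧ (k : ℤ) ∣ n - n0 ∧ (k' : ℤ) ∣ n - n0 := by
          rw [Int.natCast_dvd, Int.natCast_dvd, Int.natCast_dvd, Int.natCast_dvd, hQ,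
            Nat.lcm_dvd_iff, Nat.lcm_dvd_iff]
        rw [e4, e6]
        have e7 : n = (n - n0) + n0 := by ring
        have e8 : n - a = (n - n0) + (n0 - a) := by ring
        have e9 : n - a' = (n - n0) + (n0 - a') := by ring
        have f1 : (q : ℤ) ∣ n ↔ (q : ℤ) ∣ n - n0 := by
          constructor
          · intro h; exact dvd_sub h h1
          · intro h; rw [e7]; exact dvd_add h h1
        have f2 : (k : ℤ) ∣ n - a ↔ (k : ℤ) ∣ n - n0 := by
          rw [e8]; exact dvd_add_left h2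
        have f3 : (k' : ℤ) ∣ n - a' ↔ (k' : ℤ) ∣ n - n0 := by
          rw [e9]; exact dvd_add_left h3
        rw [f1, f2, f3]
      by_cases hc : ((q : ℤ) ∣ n ∧ (k : ℤ) ∣ n - a ∧ (k' : ℤ) ∣ n - a')
      · rw [if_pos hc, if_pos (hiff.1 hc)]
      · rw [if_neg hc, if_neg (fun h => hc (hiff.2 h))]
  · left
    intro n
    rw [II3, if_neg (fun hn => h ⟨n, hn⟩)]

/-- the indices of the expansion of the weight -/
def SI (z D : ℕ) : Finset (ℕ × ℕ × ℕ × ℕ) := Icc 1 z ×ˢ Icc 1 z ×ˢ Icc 1 D ×ˢ Icc 1 D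

/-- the coefficients of the expansion of the weight -/
noncomputable def co (lam th th' : ℕ → ℝ) (s : ℕ × ℕ × ℕ × ℕ) : ℝ :=
  lam s.1 * lam s.2.1 * (th s.2.2.1 * th' s.2.2.2)

/-- the indicators of the expansion of the weight -/
noncomputable def ind (a a' n : ℤ) (s : ℕ × ℕ × ℕ × ℕ) : ℝ :=
  II (Nat.lcm s.1 s.2.1) n * II s.2.2.1 (n - a) * II s.2.2.2 (n - a')

theorem G_eq (lam th th' : ℕ → ℝ) (z D : ℕ) (a a' n : ℤ) :
    nuS lam z n * (Ev th D (n - a) * Ev th' D (n - a')) =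
      ∑ s ∈ SI z D, co lam th th' s * ind a a' n s := by
  unfold SI co ind
  rw [nuS_eq, Ev_eq, Ev_eq, Finset.sum_product, Finset.sum_mul]
  refine Finset.sum_congr rfl fun q₁ _ => ?_
  rw [Finset.sum_product, Finset.sum_mul]
  refine Finset.sum_congr rfl fun q₂ _ => ?_
  rw [Finset.sum_product, Finset.sum_mul_sum, Finset.mul_sum]
  refine Finset.sum_congr rfl fun k _ => ?_
  rw [Finset.mul_sum]
  refine Finset.sum_congr rfl fun k' _ => ?_
  ring

/-- the coprime pairs -/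
noncomputable def Mc (c c' : ℕ → ℝ) (D0 X : ℕ) (a a' n : ℤ) : ℝ :=
  ∑ d ∈ Ioc D0 X, ∑ d' ∈ (Ioc D0 X).filter (fun d' => Nat.Coprime d d'),
    c d * c' d' * (dl d (n - a) * dl d' (n - a'))

theorem Mc_abs (c c' : ℕ → ℝ) (D0 X : ℕ) (a a' n : ℤ) :
    |Mc c c' D0 X a a' n| ≤ ∑ d ∈ Ioc D0 X, ∑ d' ∈ (Ioc D0 X).filter (fun d' => Nat.Coprime d d'),
      |c d * c' d'| * 4 := by
  unfold Mc
  refine (Finset.abs_sum_le_sum_abs _ _).trans (Finset.sum_le_sum fun d _ => ?_)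
  refine (Finset.abs_sum_le_sum_abs _ _).trans (Finset.sum_le_sum fun d' _ => ?_)
  rw [abs_mul]
  refine mul_le_mul_of_nonneg_left ?_ (abs_nonneg _)
  rw [abs_mul]
  calc |dl d (n - a)| * |dl d' (n - a')| ≤ 2 * 2 := by
        gcongr
        · exact dl_abs d _
        · exact dl_abs d' _
    _ = 4 := by norm_num

theorem ind_abs (a a' n : ℤ) (s : ℕ × ℕ × ℕ × ℕ) : |ind a a' n s| ≤ 1 := by
  unfold ind
  rw [abs_mul, abs_mul]
  have k1 := II_abs (Nat.lcm s.1 s.2.1) n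
  have k2 := II_abs s.2.2.1 (n - a)
  have k3 := II_abs s.2.2.2 (n - a')
  calc |II (Nat.lcm s.1 s.2.1) n| * |II s.2.2.1 (n - a)| * |II s.2.2.2 (n - a')| ≤ 1 * 1 * 1 := by
        gcongr
    _ = 1 := by norm_num

/-- exchange of the finite sum with the sum over `n` -/
theorem expand (N : ℕ) (hN : 1 ≤ N) (lam th th' : ℕ → ℝ) (z D : ℕ) (a a' : ℤ) (F : ℤ → ℝ) (B : ℝ)
    (hF : ∀ n, |F n| ≤ B) :
    ∑' n : ℤ, Wt N n * nuS lam z n * (Ev th D (n - a) * Ev th' D (n - a')) * F n =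
      ∑ s ∈ SI z D, co lam th th' s * ∑' n : ℤ, Wt N n * (ind a a' n s * F n) := by
  have hB : 0 ≤ B := (abs_nonneg _).trans (hF 0)
  have hs : ∀ s ∈ SI z D, Summable (fun n : ℤ => co lam th th' s * (Wt N n * (ind a a' n s * F n))) := by
    intro s _
    refine Summable.mul_left _ (summable_bd N hN _ (1 * B) fun n => ?_)
    rw [abs_mul]
    exact mul_le_mul (ind_abs a a' n s) (hF n) (abs_nonneg _) zero_le_one
  have h1 : ∀ n : ℤ, Wt N n * nuS lam z n * (Ev th D (n - a) * Ev th' D (n - a')) * F n =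
      ∑ s ∈ SI z D, co lam th th' s * (Wt N n * (ind a a' n s * F n)) := by
    intro n
    have h2 : Wt N n * nuS lam z n * (Ev th D (n - a) * Ev th' D (n - a')) * F n =
      (nuS lam z n * (Ev th D (n - a) * Ev th' D (n - a'))) * (Wt N n * F n) := by ring
    rw [h2, G_eq, Finset.sum_mul]
    refine Finset.sum_congr rfl fun s _ => ?_
    ring
  rw [tsum_congr h1, Summable.tsum_finsetSum hs]
  refine Finset.sum_congr rfl fun s _ => ?_
  rw [tsum_mul_left]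

/-- one residue class -/
theorem one_class (N : ℕ) (hN : 1 ≤ N) (c c' : ℕ → ℝ) (D0 X Q : ℕ) (a a' b : ℤ) :
    ∑' n : ℤ, Wt N n * (II Q (n - b) * Mc c c' D0 X a a' n) =
      ∑ d ∈ Ioc D0 X, ∑ d' ∈ (Ioc D0 X).filter (fun d' => Nat.Coprime d d'), c d * c' d' *
      ∑' n : ℤ, (if (Q : ℤ) ∣ n - b then Wt N n else 0) *
        (dl d (n - a) * dl d' (n - a')) := by
  have hs : ∀ d d' : ℕ, Summable (fun n : ℤ => c d * c' d' *
      ((if (Q : ℤ) ∣ n - b then Wt N n else 0) * (dl d (n - a) * dl d' (n - a')))) := by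
    intro d d'
    refine Summable.mul_left _ ?_
    have h := summable_bd N hN (fun n : ℤ => II Q (n - b) * (dl d (n - a) * dl d' (n - a')))
      (1 * (2 * 2)) (fun n => by
        rw [abs_mul, abs_mul]
        have k1 := II_abs Q (n - b)
        have k2 := dl_abs d (n - a)
        have k3 := dl_abs d' (n - a')
        gcongr)
    refine h.congr fun n => ?_
    unfold II
    by_cases h1 : (Q : ℤ) ∣ n - b <;> simp [h1]
  have h1 : ∀ n : ℤ, Wt N n * (II Q (n - b) * Mc c c' D0 X a a' n) =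
      ∑ d ∈ Ioc D0 X, ∑ d' ∈ (Ioc D0 X).filter (fun d' => Nat.Coprime d d'), c d * c' d' *
      ((if (Q : ℤ) ∣ n - b then Wt N n else 0) * (dl d (n - a) * dl d' (n - a'))) := by
    intro n
    have h2 : Wt N n * (II Q (n - b) * Mc c c' D0 X a a' n) =
        (if (Q : ℤ) ∣ n - b then Wt N n else 0) * Mc c c' D0 X a a' n := by
      unfold II
      by_cases h1 : (Q : ℤ) ∣ n - b <;> simp [h1]
    rw [h2]
    unfold Mc
    rw [Finset.mul_sum]
    refine Finset.sum_congr rfl fun d _ => ?_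
    rw [Finset.mul_sum]
    refine Finset.sum_congr rfl fun d' _ => ?_
    ring
  rw [tsum_congr h1, Summable.tsum_finsetSum fun d _ => summable_sum fun d' _ => hs d d']
  refine Finset.sum_congr rfl fun d _ => ?_
  rw [Summable.tsum_finsetSum fun d' _ => hs d d']
  refine Finset.sum_congr rfl fun d' _ => ?_
  rw [tsum_mul_left]

theorem sqf_lcm {a b : ℕ} (ha : Squarefree a) (hb : Squarefree b) : Squarefree (Nat.lcm a b) := by
  rw [Nat.squarefree_iff_factorization_le_one (Nat.lcm_ne_zero ha.ne_zero hb.ne_zero)]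
  intro p
  rw [Nat.factorization_lcm ha.ne_zero hb.ne_zero, Finsupp.sup_apply]
  exact max_le (ha.natFactorization_le_one p) (hb.natFactorization_le_one p)

/-- the coprime pairs, all terms of the expansion -/
theorem cop_part (N z D D0 X : ℕ) (hN : 1 ≤ N) (U B : ℝ) (hU : 0 ≤ U) (hB : 0 ≤ B)
    (lam th th' : ℕ → ℝ) (hlam : ∀ q, |lam q| ≤ 1) (hth : ∀ k, |th k| ≤ U)
    (hth' : ∀ k, |th' k| ≤ U) (a a' : ℤ) (c c' : ℕ → ℝ)
    (hcl : ∀ q₁ ∈ Icc 1 z, ∀ q₂ ∈ Icc 1 z, ∀ k ∈ Icc 1 D, ∀ k' ∈ Icc 1 D, lam q₁ ≠ 0 →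
      lam q₂ ≠ 0 → th k ≠ 0 → th' k' ≠ 0 → ∀ b : ℤ,
      |(b : ℝ)| ≤ (Nat.lcm (Nat.lcm q₁ q₂) (Nat.lcm k k') : ℝ) →
      |∑ d ∈ Ioc D0 X, ∑ d' ∈ (Ioc D0 X).filter (fun d' => Nat.Coprime d d'), c d * c' d' *
      ∑' n : ℤ, (if ((Nat.lcm (Nat.lcm q₁ q₂) (Nat.lcm k k') : ℕ) : ℤ) ∣ n - b then Wt N n else 0) *
        (dl d (n - a) * dl d' (n - a'))| ≤ B) :
    |∑' n : ℤ, Wt N n * nuS lam z n * (Ev th D (n - a) * Ev th' D (n - a')) *
      Mc c c' D0 X a a' n| ≤ (z : ℝ) ^ 2 * (D : ℝ) ^ 2 * U ^ 2 * B := by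
  rw [expand N hN lam th th' z D a a' (Mc c c' D0 X a a') _ (fun n => Mc_abs c c' D0 X a a' n)]
  have hterm : ∀ s ∈ SI z D, |co lam th th' s *
      ∑' n : ℤ, Wt N n * (ind a a' n s * Mc c c' D0 X a a' n)| ≤ U ^ 2 * B := by
    rintro ⟨q₁, q₂, k, k'⟩ hs
    have hU2 : 0 ≤ U ^ 2 * B := by positivity
    unfold SI at hs
    simp only [Finset.mem_product] at hs
    obtain ⟨hq₁, hq₂, hk, hk'⟩ := hs
    by_cases h1 : lam q₁ = 0
    · simp [co, h1, hU2]
    by_cases h2 : lam q₂ = 0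
    · simp [co, h2, hU2]
    by_cases h3 : th k = 0
    · simp [co, h3, hU2]
    by_cases h4 : th' k' = 0
    · simp [co, h4, hU2]
    have hco : |co lam th th' (q₁, q₂, k, k')| ≤ U ^ 2 := by
      unfold co
      rw [abs_mul, abs_mul, abs_mul]
      have g1 := hlam q₁
      have g2 := hlam q₂
      have g3 := hth k
      have g4 := hth' k'
      calc |lam q₁| * |lam q₂| * (|th k| * |th' k'|) ≤ 1 * 1 * (U * U) := by gcongr
        _ = U ^ 2 := by ring
    rw [abs_mul]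
    refine mul_le_mul hco ?_ (abs_nonneg _) (by positivity)
    have hl : 1 ≤ Nat.lcm q₁ q₂ :=
      Nat.lcm_pos (Finset.mem_Icc.1 hq₁).1 (Finset.mem_Icc.1 hq₂).1
    rcases class_or (Nat.lcm q₁ q₂) k k' hl (Finset.mem_Icc.1 hk).1 (Finset.mem_Icc.1 hk').1 a a'
      with h5 | ⟨b, hb, h5⟩
    · have h6 : ∀ n : ℤ, Wt N n * (ind a a' n (q₁, q₂, k, k') * Mc c c' D0 X a a' n) = 0 := by
        intro n
        unfold ind
        rw [h5 n]; ring
      rw [tsum_congr h6, tsum_zero, abs_zero]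
      exact hB
    · have h6 : ∀ n : ℤ, Wt N n * (ind a a' n (q₁, q₂, k, k') * Mc c c' D0 X a a' n) =
          Wt N n * (II (Nat.lcm (Nat.lcm q₁ q₂) (Nat.lcm k k')) (n - b) *
            Mc c c' D0 X a a' n) := by
        intro n
        unfold ind
        rw [h5 n]
      rw [tsum_congr h6, one_class N hN]
      exact hcl q₁ hq₁ q₂ hq₂ k hk k' hk' h1 h2 h3 h4 b hb
  calc |∑ s ∈ SI z D, co lam th th' s *
      ∑' n : ℤ, Wt N n * (ind a a' n s * Mc c c' D0 X a a' n)| ≤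
      ∑ s ∈ SI z D, |co lam th th' s *
      ∑' n : ℤ, Wt N n * (ind a a' n s * Mc c c' D0 X a a' n)| := Finset.abs_sum_le_sum_abs _ _
    _ ≤ ∑ s ∈ SI z D, U ^ 2 * B := Finset.sum_le_sum hterm
    _ = (z : ℝ) ^ 2 * (D : ℝ) ^ 2 * U ^ 2 * B := by
        rw [Finset.sum_const, nsmul_eq_mul]
        unfold SI
        rw [Finset.card_product, Finset.card_product, Finset.card_product, Nat.card_Icc,
          Nat.card_Icc]
        simp only [Nat.add_sub_cancel]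
        push_cast
        ring

end Pool.Agent.W372.PL
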