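import Pool.Agent.W372.PL.OFD1
import Pool.Agent.H442R2.BX.Nc
import Pool.Agent.H442R2.BX.Gs
import Pool.Agent.H442R2.BX.Rb

/-!
PL project, task OFD, part 2 (helper372): the pairs with a common factor, pointwise.
-/

namespace Pool.Agent.W372.PL

open Finset
open Pool.Agent.H442R2
open Pool.Agent.H442R2.KF
open Pool.Agent.H442R2.BX
open Pool.Agent.H442R2.BX.TaskEX
open Pool.Agent.W23.DC
open Pool.Agent.W23.PL

/-- `1_{d | m} + 1/d` -/
noncomputable def vv (d : ℕ) (m : ℤ) : ℝ := II d m + 1 / (d : ℝ)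

theorem II_nonneg (d : ℕ) (m : ℤ) : 0 ≤ II d m := by
  unfold II; split_ifs <;> norm_num

theorem II_le_one (d : ℕ) (m : ℤ) : II d m ≤ 1 := by
  unfold II; split_ifs <;> norm_num

theorem vv_nonneg (d : ℕ) (m : ℤ) : 0 ≤ vv d m :=
  add_nonneg (II_nonneg d m) (by positivity)

theorem dl_le_vv (d : ℕ) (m : ℤ) : |dl d m| ≤ vv d m := by
  rw [dl_eq]
  unfold vv
  have h1 := II_nonneg d m
  have h2 : (0 : ℝ) ≤ 1 / (d : ℝ) := by positivity
  rw [abs_le]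
  constructor <;> linarith

/-- `∑_{d} (1_{d | n - a} + 1/d)` -/
noncomputable def Sv (y : ℝ) (X : ℕ) (a n : ℤ) : ℝ := ∑ d ∈ roughs y X, vv d (n - a)

/-- the pairs with a common factor -/
noncomputable def Ee (y : ℝ) (X : ℕ) (a a' n : ℤ) : ℝ :=
  ∑ d ∈ roughs y X, ∑ d' ∈ (roughs y X).filter (fun d' => ¬ Nat.Coprime d d'),
    vv d (n - a) * vv d' (n - a')

theorem mem_roughs {y : ℝ} {X d : ℕ} : d ∈ roughs y X ↔ (1 ≤ d ∧ d ≤ X) ∧ Rough y d := by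
  classical
  unfold roughs
  rw [Finset.mem_filter, Finset.mem_Icc]

theorem roughs_sub (y : ℝ) (X : ℕ) : roughs y X ⊆ Icc 1 X := by
  intro d hd
  exact Finset.mem_Icc.2 (mem_roughs.1 hd).1

section
variable {y : ℝ} {D0 X : ℕ} {a a' n : ℤ} {c c' : ℕ → ℝ}

theorem c_mem (hc : CofR y X c) : ∀ d, c d ≠ 0 → d ∈ roughs y X := by
  intro d hd
  obtain ⟨h1, h2⟩ := hc.supp d hd
  exact mem_roughs.2 ⟨⟨h2.1.le, h1⟩, h2⟩

theorem RR_eq (hc : CofR y X c) (hc' : CofR y X c') :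
    Rf c X a n * Rf c' X a' n = ∑ d ∈ roughs y X, ∑ d' ∈ roughs y X,
      c d * c' d' * (dl d (n - a) * dl d' (n - a')) := by
  rw [← TaskTT.restr (roughs y X) (Icc 1 X) (roughs_sub y X) c c' (c_mem hc) (c_mem hc')
    (fun d d' => dl d (n - a) * dl d' (n - a'))]
  unfold Rf
  rw [Finset.sum_mul_sum]
  refine Finset.sum_congr rfl fun d _ => Finset.sum_congr rfl fun d' _ => ?_
  ring

theorem Mc_eq (hc : CofR y X c) (hc' : CofR y X c') (hD : ∀ d, c d ≠ 0 → D0 < d)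
    (hD' : ∀ d, c' d ≠ 0 → D0 < d) :
    Mc c c' D0 X a a' n = ∑ d ∈ roughs y X, ∑ d' ∈ roughs y X,
      c d * c' d' * (if Nat.Coprime d d' then dl d (n - a) * dl d' (n - a') else 0) := by
  have h1 : Mc c c' D0 X a a' n = ∑ d ∈ Ioc D0 X, ∑ d' ∈ Ioc D0 X, c d * c' d' *
      (if Nat.Coprime d d' then dl d (n - a) * dl d' (n - a') else 0) := by
    unfold Mc
    refine Finset.sum_congr rfl fun d _ => ?_
    rw [Finset.sum_filter]
    refine Finset.sum_congr rfl fun d' _ => ?_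
    split_ifs
    · rfl
    · ring
  have hII : Ioc D0 X ⊆ Icc 1 X := by
    intro d hd
    rw [Finset.mem_Ioc] at hd
    rw [Finset.mem_Icc]
    omega
  rw [h1, ← TaskTT.restr (Ioc D0 X) (Icc 1 X) hII c c'
    (fun d hd => Finset.mem_Ioc.2 ⟨hD d hd, (hc.supp d hd).1⟩)
    (fun d hd => Finset.mem_Ioc.2 ⟨hD' d hd, (hc'.supp d hd).1⟩),
    TaskTT.restr (roughs y X) (Icc 1 X) (roughs_sub y X) c c' (c_mem hc) (c_mem hc')]

theorem diff_le (hc : CofR y X c) (hc' : CofR y X c') (hD : ∀ d, c d ≠ 0 → D0 < d)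
    (hD' : ∀ d, c' d ≠ 0 → D0 < d) (hn : n ≠ a) (hn' : n ≠ a') :
    |rf c X a n * rf c' X a' n - Mc c c' D0 X a a' n| ≤ Ee y X a a' n := by
  have h1 : rf c X a n = Rf c X a n := by unfold rf; rw [if_neg hn]
  have h2 : rf c' X a' n = Rf c' X a' n := by unfold rf; rw [if_neg hn']
  rw [h1, h2, RR_eq hc hc', Mc_eq hc hc' hD hD', ← Finset.sum_sub_distrib]
  have h3 : ∀ d ∈ roughs y X, (∑ d' ∈ roughs y X, c d * c' d' * (dl d (n - a) * dl d' (n - a'))) -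
      (∑ d' ∈ roughs y X, c d * c' d' *
        (if Nat.Coprime d d' then dl d (n - a) * dl d' (n - a') else 0)) =
      ∑ d' ∈ roughs y X, c d * c' d' *
        (if Nat.Coprime d d' then 0 else dl d (n - a) * dl d' (n - a')) := by
    intro d _
    rw [← Finset.sum_sub_distrib]
    refine Finset.sum_congr rfl fun d' _ => ?_
    split_ifs <;> ring
  rw [Finset.sum_congr rfl h3]
  refine (TaskTT.abs_dsum_le (roughs y X) c c' hc.bd hc'.bd
    (fun d d' => if Nat.Coprime d d' then 0 else dl d (n - a) * dl d' (n - a'))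
    (fun d d' => if Nat.Coprime d d' then 0 else vv d (n - a) * vv d' (n - a')) ?_ ?_).trans ?_
  · intro d _ d' _ _ _
    split_ifs
    · simp
    · rw [abs_mul]
      exact mul_le_mul (dl_le_vv _ _) (dl_le_vv _ _) (abs_nonneg _) (vv_nonneg _ _)
  · intro d _ d' _
    split_ifs
    · exact le_rfl
    · exact mul_nonneg (vv_nonneg _ _) (vv_nonneg _ _)
  · unfold Ee
    refine Finset.sum_le_sum fun d _ => ?_
    rw [Finset.sum_filter]
    refine Finset.sum_le_sum fun d' _ => ?_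
    by_cases h : Nat.Coprime d d'
    · rw [if_pos h, if_neg (not_not.2 h)]
    · rw [if_neg h, if_pos h]

theorem Sv_nonneg (y : ℝ) (X : ℕ) (a n : ℤ) : 0 ≤ Sv y X a n :=
  Finset.sum_nonneg fun _ _ => vv_nonneg _ _

theorem Rf_le_Sv (hc : CofR y X c) : |Rf c X a n| ≤ Sv y X a n := by
  have h1 : Rf c X a n = ∑ d ∈ roughs y X, c d * dl d (n - a) := by
    unfold Rf
    symm
    refine Finset.sum_subset (roughs_sub y X) fun d _ hd => ?_
    have : c d = 0 := by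
      by_contra h
      exact hd (c_mem hc d h)
    rw [this, zero_mul]
  rw [h1]
  refine (Finset.abs_sum_le_sum_abs _ _).trans (Finset.sum_le_sum fun d _ => ?_)
  rw [abs_mul]
  calc |c d| * |dl d (n - a)| ≤ 1 * vv d (n - a) :=
        mul_le_mul (hc.bd d) (dl_le_vv _ _) (abs_nonneg _) zero_le_one
    _ = vv d (n - a) := one_mul _

theorem crude (hc : CofR y X c) (hc' : CofR y X c') (hD : ∀ d, c d ≠ 0 → D0 < d)
    (hD' : ∀ d, c' d ≠ 0 → D0 < d) :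
    |rf c X a n * rf c' X a' n - Mc c c' D0 X a a' n| ≤ 2 * (Sv y X a n * Sv y X a' n) := by
  have h1 : |rf c X a n| ≤ Sv y X a n := by
    unfold rf
    split_ifs
    · rw [abs_zero]; exact Sv_nonneg _ _ _ _
    · exact Rf_le_Sv hc
  have h2 : |rf c' X a' n| ≤ Sv y X a' n := by
    unfold rf
    split_ifs
    · rw [abs_zero]; exact Sv_nonneg _ _ _ _
    · exact Rf_le_Sv hc'
  have h3 : |rf c X a n * rf c' X a' n| ≤ Sv y X a n * Sv y X a' n := by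
    rw [abs_mul]
    exact mul_le_mul h1 h2 (abs_nonneg _) (Sv_nonneg _ _ _ _)
  have h4 : |Mc c c' D0 X a a' n| ≤ Sv y X a n * Sv y X a' n := by
    rw [Mc_eq hc hc' hD hD']
    refine (TaskTT.abs_dsum_le (roughs y X) c c' hc.bd hc'.bd
      (fun d d' => if Nat.Coprime d d' then dl d (n - a) * dl d' (n - a') else 0)
      (fun d d' => vv d (n - a) * vv d' (n - a')) ?_ ?_).trans ?_
    · intro d _ d' _ _ _
      split_ifs
      · rw [abs_mul]
        exact mul_le_mul (dl_le_vv _ _) (dl_le_vv _ _) (abs_nonneg _) (vv_nonneg _ _)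
      · rw [abs_zero]
        exact mul_nonneg (vv_nonneg _ _) (vv_nonneg _ _)
    · intro d _ d' _
      exact mul_nonneg (vv_nonneg _ _) (vv_nonneg _ _)
    · unfold Sv
      rw [Finset.sum_mul_sum]
  have h5 := abs_sub (rf c X a n * rf c' X a' n) (Mc c c' D0 X a a' n)
  linarith

end

/-- `∑_{d ≤ X} 1/d ≤ 1 + log N` -/
theorem harm (X N : ℕ) (hXN : X ≤ N) (y : ℝ) :
    ∑ d ∈ roughs y X, 1 / (d : ℝ) ≤ 1 + Real.log N := by
  have h3 : ∑ m ∈ Icc 1 N, 1 / (m : ℝ) ≤ 1 + Real.log N := by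
    have h4 := harmonic_le_one_add_log N
    rw [harmonic_eq_sum_Icc] at h4
    push_cast at h4
    simpa [one_div] using h4
  refine le_trans ?_ h3
  refine Finset.sum_le_sum_of_subset_of_nonneg ?_ fun _ _ _ => by positivity
  exact (roughs_sub y X).trans (Finset.Icc_subset_Icc_right hXN)

theorem sum_II (y : ℝ) (X : ℕ) (m : ℤ) :
    ∑ d ∈ roughs y X, II d m = ((rd y X m).card : ℝ) := by
  unfold II rd
  rw [Finset.sum_boole]

theorem Sv_eq (y : ℝ) (X : ℕ) (a n : ℤ) :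
    Sv y X a n = ((rd y X (n - a)).card : ℝ) + ∑ d ∈ roughs y X, 1 / (d : ℝ) := by
  unfold Sv vv
  rw [Finset.sum_add_distrib, sum_II]

theorem card_roughs (y : ℝ) (X : ℕ) : ((roughs y X).card : ℝ) ≤ X := by
  have h : (roughs y X).card ≤ (Icc 1 X).card := Finset.card_le_card (roughs_sub y X)
  rw [Nat.card_Icc] at h
  exact_mod_cast (by omega : (roughs y X).card ≤ X)

theorem Sv_le (y : ℝ) (X : ℕ) (a n : ℤ) : Sv y X a n ≤ 2 * X := by
  unfold Sv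
  calc ∑ d ∈ roughs y X, vv d (n - a) ≤ ∑ d ∈ roughs y X, (2 : ℝ) := by
        refine Finset.sum_le_sum fun d hd => ?_
        unfold vv
        have h1 := II_le_one d (n - a)
        have h2 : 1 ≤ d := (mem_roughs.1 hd).1.1
        have h3 : (1 : ℝ) ≤ d := by exact_mod_cast h2
        have h4 : 1 / (d : ℝ) ≤ 1 := by
          rw [div_le_one (by linarith)]; exact h3
        linarith
    _ = 2 * ((roughs y X).card : ℝ) := by
        rw [Finset.sum_const, nsmul_eq_mul]; ring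
    _ ≤ 2 * X := by
        have := card_roughs y X
        linarith

theorem x14 (N : ℕ) (hN : 0 < (N : ℝ)) (b : ℤ) (hb : |(b : ℝ)| ≤ N) :
    (1 + |(b : ℝ)| / N) ^ (1 / 4 : ℝ) ≤ 2 := by
  have h1 : 1 + |(b : ℝ)| / N ≤ 2 := by
    have : |(b : ℝ)| / N ≤ 1 := by rw [div_le_one hN]; exact hb
    linarith
  have h2 : (1 : ℝ) ≤ 1 + |(b : ℝ)| / N := by
    have : 0 ≤ |(b : ℝ)| / N := by positivity
    linarith
  calc (1 + |(b : ℝ)| / N) ^ (1 / 4 : ℝ) ≤ (1 + |(b : ℝ)| / N) ^ (1 : ℝ) :=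
        Real.rpow_le_rpow_of_exponent_le h2 (by norm_num)
    _ = 1 + |(b : ℝ)| / N := Real.rpow_one _
    _ ≤ 2 := h1

/-- the crude bound at a point `n` with `|n| ≤ N` -/
theorem crude_pt (y : ℝ) (N X : ℕ) (hN : 1 ≤ N) (hXN : X ≤ N) (C0 : ℝ) (hC0 : 0 < C0)
    (hrc : ∀ (a n : ℤ), |(a : ℝ)| ≤ N → n ≠ a →
      ((rd y X (n - a)).card : ℝ) ≤ C0 * (1 + |(n : ℝ)| / N) ^ (1 / 4 : ℝ))
    (a a' n : ℤ) (ha : |(a : ℝ)| ≤ N) (ha' : |(a' : ℝ)| ≤ N) (hn : |(n : ℝ)| ≤ N) (haa : a ≠ a') :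
    Sv y X a n * Sv y X a' n ≤ 2 * X * (2 * C0 + 1 + Real.log N) := by
  have hN0 : (0 : ℝ) < N := by exact_mod_cast (by omega : 0 < N)
  have hlog : 0 ≤ Real.log N := Real.log_natCast_nonneg N
  have key : ∀ b : ℤ, |(b : ℝ)| ≤ N → n ≠ b → Sv y X b n ≤ 2 * C0 + 1 + Real.log N := by
    intro b hb hnb
    rw [Sv_eq]
    have h1 := hrc b n hb hnb
    have h2 := x14 N hN0 n hn
    have h3 := harm X N hXN y
    nlinarith
  by_cases hna : n = a
  · have hna' : n ≠ a' := fun h => haa (hna.symm.trans h)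
    calc Sv y X a n * Sv y X a' n ≤ (2 * X) * (2 * C0 + 1 + Real.log N) :=
          mul_le_mul (Sv_le _ _ _ _) (key a' ha' hna') (Sv_nonneg _ _ _ _) (by positivity)
      _ = _ := by ring
  · calc Sv y X a n * Sv y X a' n ≤ (2 * C0 + 1 + Real.log N) * (2 * X) :=
          mul_le_mul (key a ha hna) (Sv_le _ _ _ _) (Sv_nonneg _ _ _ _) (by positivity)
      _ = _ := by ring

/-- `E₁`: pairs of divisors with a common factor -/
theorem E1_le (y : ℝ) (N X : ℕ) (hN : 1 ≤ N) (C0 : ℝ) (hC0 : 0 < C0)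
    (hrc : ∀ (a n : ℤ), |(a : ℝ)| ≤ N → n ≠ a →
      ((rd y X (n - a)).card : ℝ) ≤ C0 * (1 + |(n : ℝ)| / N) ^ (1 / 4 : ℝ))
    (a a' n : ℤ) (ha : |(a : ℝ)| ≤ N) (ha' : |(a' : ℝ)| ≤ N) (haa : a ≠ a')
    (hna : n ≠ a) (hna' : n ≠ a') :
    ∑ d ∈ roughs y X, ∑ d' ∈ (roughs y X).filter (fun d' => ¬ Nat.Coprime d d'),
      II d (n - a) * II d' (n - a') ≤
      C0 ^ 2 * (1 + |(n : ℝ)| / N) ^ (1 / 2 : ℝ) *
        ∑ l ∈ (rd y (2 * N) (a' - a)).filter Nat.Prime, II l (n - a) := by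
  classical
  have hNpos : (0:ℝ) < N := by exact_mod_cast (by omega : 0 < N)
  have hx : (1 : ℝ) ≤ 1 + |(n : ℝ)| / N := by
    have : 0 ≤ |(n:ℝ)| / N := by positivity
    linarith
  set E := ∑ d ∈ roughs y X, ∑ d' ∈ (roughs y X).filter (fun d' => ¬ Nat.Coprime d d'),
      II d (n - a) * II d' (n - a') with hE
  by_cases h0 : E = 0
  · rw [h0]
    refine mul_nonneg (by positivity) (Finset.sum_nonneg fun _ _ => II_nonneg _ _)
  obtain ⟨d, hd, hd2⟩ := exists_ne_zero_of_sum_ne_zero h0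
  obtain ⟨d', hd', hd2'⟩ := exists_ne_zero_of_sum_ne_zero hd2
  have hdv1 : (d : ℤ) ∣ n - a := by
    by_contra hc
    exact hd2' (by unfold II; rw [if_neg hc, zero_mul])
  have hdv2 : (d' : ℤ) ∣ n - a' := by
    by_contra hc
    exact hd2' (by unfold II; rw [if_neg hc, mul_zero])
  rw [mem_filter] at hd'
  obtain ⟨l, hl, hldd⟩ := Nat.exists_prime_and_dvd (n := Nat.gcd d d') (fun h => hd'.2 h)
  have hld : l ∣ d := hldd.trans (Nat.gcd_dvd_left _ _)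
  have hld' : l ∣ d' := hldd.trans (Nat.gcd_dvd_right _ _)
  have hRd : Rough y d := (mem_roughs.1 hd).2
  have hlr := TaskNC.rough_prime y d l hRd hl hld
  have hla : (l : ℤ) ∣ n - a := (Int.natCast_dvd_natCast.2 hld).trans hdv1
  have hla' : (l : ℤ) ∣ n - a' := (Int.natCast_dvd_natCast.2 hld').trans hdv2
  have hlaa : (l : ℤ) ∣ a' - a := by
    have := dvd_sub hla hla'
    have e : n - a - (n - a') = a' - a := by ring
    rwa [e] at this
  have hle : l ≤ 2 * N := by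
    have h1 : (l : ℤ) ≤ |a' - a| :=
      Int.le_of_dvd (abs_pos.2 (sub_ne_zero.2 haa.symm)) ((dvd_abs _ _).2 hlaa)
    have h2 : |((a' - a : ℤ) : ℝ)| ≤ 2 * N := by
      push_cast
      have := abs_sub (a' : ℝ) (a : ℝ)
      linarith
    have h3 : ((l : ℤ) : ℝ) ≤ |((a' - a : ℤ) : ℝ)| := by
      rw [← Int.cast_abs]
      exact_mod_cast h1
    have h4 : (l : ℝ) ≤ 2 * N := by
      have : ((l : ℤ) : ℝ) = (l : ℝ) := by simp
      linarith
    exact_mod_cast h4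
  have hlL : l ∈ (rd y (2 * N) (a' - a)).filter Nat.Prime := by
    rw [mem_filter]
    refine ⟨?_, hl⟩
    unfold rd
    rw [mem_filter]
    exact ⟨mem_roughs.2 ⟨⟨hl.one_le, hle⟩, hlr.2⟩, hlaa⟩
  have hsum1 : (1 : ℝ) ≤ ∑ l ∈ (rd y (2 * N) (a' - a)).filter Nat.Prime, II l (n - a) := by
    have h1 : II l (n - a) = 1 := by unfold II; rw [if_pos hla]
    calc (1 : ℝ) = II l (n - a) := h1.symm
      _ ≤ _ := single_le_sum (f := fun l : ℕ => II l (n - a)) (fun l _ => II_nonneg _ _) hlL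
  have hEle : E ≤ ((rd y X (n - a)).card : ℝ) * ((rd y X (n - a')).card : ℝ) := by
    calc E ≤ ∑ d ∈ roughs y X, ∑ d' ∈ roughs y X, II d (n - a) * II d' (n - a') := by
          refine sum_le_sum fun d _ => ?_
          refine sum_le_sum_of_subset_of_nonneg (filter_subset _ _) fun d' _ _ => ?_
          exact mul_nonneg (II_nonneg _ _) (II_nonneg _ _)
      _ = _ := by
          rw [← sum_II, ← sum_II, sum_mul_sum]
  have h1 := hrc a n ha hna
  have h2 := hrc a' n ha' hna'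
  have h3 : (1 + |(n : ℝ)| / N) ^ (1 / 4 : ℝ) * (1 + |(n : ℝ)| / N) ^ (1 / 4 : ℝ) =
      (1 + |(n : ℝ)| / N) ^ (1 / 2 : ℝ) := by
    rw [← Real.rpow_add (by linarith)]
    norm_num
  calc E ≤ ((rd y X (n - a)).card : ℝ) * ((rd y X (n - a')).card : ℝ) := hEle
    _ ≤ (C0 * (1 + |(n : ℝ)| / N) ^ (1 / 4 : ℝ)) * (C0 * (1 + |(n : ℝ)| / N) ^ (1 / 4 : ℝ)) := by
        gcongr
    _ = C0 ^ 2 * ((1 + |(n : ℝ)| / N) ^ (1 / 4 : ℝ) * (1 + |(n : ℝ)| / N) ^ (1 / 4 : ℝ)) := by ring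
    _ = C0 ^ 2 * (1 + |(n : ℝ)| / N) ^ (1 / 2 : ℝ) * 1 := by rw [h3]; ring
    _ ≤ _ := mul_le_mul_of_nonneg_left hsum1 (by positivity)

/-- the majorant -/
noncomputable def Maj (y : ℝ) (N X : ℕ) (C0 : ℝ) (a a' n : ℤ) : ℝ :=
  C0 ^ 2 * (∑ l ∈ (rd y (2 * N) (a' - a)).filter Nat.Prime, Wt (2 * N) n * II l (n - a)) +
  (∑ d ∈ roughs y X, ∑ d' ∈ (roughs y X).filter (fun d' => ¬ Nat.Coprime d d'),
    1 / (d' : ℝ) * (Wt (2 * N) n * II d (n - a))) +
  (∑ d ∈ roughs y X, ∑ d' ∈ (roughs y X).filter (fun d' => ¬ Nat.Coprime d d'),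
    1 / (d : ℝ) * (Wt (2 * N) n * II d' (n - a'))) +
  (∑ d ∈ roughs y X, ∑ d' ∈ (roughs y X).filter (fun d' => ¬ Nat.Coprime d d'),
    1 / ((d : ℝ) * d') * (Wt (2 * N) n * II 1 n))

theorem Ee_eq (y : ℝ) (X : ℕ) (a a' n : ℤ) : Ee y X a a' n =
    (∑ d ∈ roughs y X, ∑ d' ∈ (roughs y X).filter (fun d' => ¬ Nat.Coprime d d'),
      II d (n - a) * II d' (n - a')) +
    (∑ d ∈ roughs y X, ∑ d' ∈ (roughs y X).filter (fun d' => ¬ Nat.Coprime d d'),
      1 / (d' : ℝ) * II d (n - a)) +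
    (∑ d ∈ roughs y X, ∑ d' ∈ (roughs y X).filter (fun d' => ¬ Nat.Coprime d d'),
      1 / (d : ℝ) * II d' (n - a')) +
    (∑ d ∈ roughs y X, ∑ d' ∈ (roughs y X).filter (fun d' => ¬ Nat.Coprime d d'),
      1 / ((d : ℝ) * d')) := by
  unfold Ee vv
  simp only [← Finset.sum_add_distrib]
  refine Finset.sum_congr rfl fun d _ => Finset.sum_congr rfl fun d' _ => ?_
  rw [one_div, one_div, one_div, mul_inv]
  ring

theorem alg_gen (G K1 xh x W W2 C S1 S2 S3 S4 L : ℝ) (hK1 : 0 ≤ K1) (hW : 0 ≤ W) (hxh : 0 ≤ xh)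
    (hx2 : xh * xh = x) (hx3 : xh ≤ x) (hG : G ≤ K1 * xh * W) (hE1 : S1 ≤ C * xh * L)
    (hWx : W * x ≤ 2 * W2) (p1 : 0 ≤ S1) (p2 : 0 ≤ S2) (p3 : 0 ≤ S3) (p4 : 0 ≤ S4) (pL : 0 ≤ L)
    (hC : 0 ≤ C) :
    G * (S1 + S2 + S3 + S4) ≤ 2 * K1 * (C * (W2 * L) + W2 * S2 + W2 * S3 + W2 * S4) := by
  have q1 : 0 ≤ S1 + S2 + S3 + S4 := by positivity
  have q2 : 0 ≤ S2 + S3 + S4 := by positivity
  have q3 : 0 ≤ C * L + (S2 + S3 + S4) := by positivity
  have r1 : G * (S1 + S2 + S3 + S4) ≤ (K1 * xh * W) * (S1 + S2 + S3 + S4) :=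
    mul_le_mul_of_nonneg_right hG q1
  have r2 : xh * S1 ≤ xh * (C * xh * L) := mul_le_mul_of_nonneg_left hE1 hxh
  have r3 : xh * (S2 + S3 + S4) ≤ x * (S2 + S3 + S4) := mul_le_mul_of_nonneg_right hx3 q2
  have r4 : xh * (C * xh * L) = x * (C * L) := by rw [← hx2]; ring
  have r5 : xh * S1 + xh * (S2 + S3 + S4) ≤ x * (C * L + (S2 + S3 + S4)) := by
    rw [r4] at r2
    linarith
  have r6 : (K1 * W) * (xh * S1 + xh * (S2 + S3 + S4)) ≤
      (K1 * W) * (x * (C * L + (S2 + S3 + S4))) :=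
    mul_le_mul_of_nonneg_left r5 (mul_nonneg hK1 hW)
  have r7 : (W * x) * (K1 * (C * L + (S2 + S3 + S4))) ≤
      (2 * W2) * (K1 * (C * L + (S2 + S3 + S4))) :=
    mul_le_mul_of_nonneg_right hWx (mul_nonneg hK1 q3)
  linarith

/-- the pointwise bound, general points -/
theorem gen_pt (y : ℝ) (N X : ℕ) (hN : 1 ≤ N) (C0 : ℝ) (hC0 : 0 < C0)
    (hrc : ∀ (a n : ℤ), |(a : ℝ)| ≤ N → n ≠ a →
      ((rd y X (n - a)).card : ℝ) ≤ C0 * (1 + |(n : ℝ)| / N) ^ (1 / 4 : ℝ))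
    (a a' n : ℤ) (ha : |(a : ℝ)| ≤ N) (ha' : |(a' : ℝ)| ≤ N) (haa : a ≠ a')
    (hna : n ≠ a) (hna' : n ≠ a') (G K1 : ℝ) (hK1 : 0 ≤ K1)
    (hG : G ≤ K1 * (1 + |(n : ℝ)| / N) ^ (1 / 2 : ℝ) * Wt N n) :
    G * Ee y X a a' n ≤ 2 * K1 * Maj y N X C0 a a' n := by
  have hNpos : (0:ℝ) < N := by exact_mod_cast (by omega : 0 < N)
  have hx : (1 : ℝ) ≤ 1 + |(n : ℝ)| / N := by
    have : 0 ≤ |(n:ℝ)| / N := by positivity
    linarith
  have hE1 := E1_le y N X hN C0 hC0 hrc a a' n ha ha' haa hna hna'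
  have hGS := (BX.GS N hN).1 n
  have hW0 := Wt_pos N n
  set x := 1 + |(n : ℝ)| / N with hxdef
  have hx2 : x ^ (1 / 2 : ℝ) * x ^ (1 / 2 : ℝ) = x := by
    rw [← Real.rpow_add (by linarith)]
    norm_num
  have hx3 : x ^ (1 / 2 : ℝ) ≤ x := by
    calc x ^ (1 / 2 : ℝ) ≤ x ^ (1 : ℝ) := Real.rpow_le_rpow_of_exponent_le hx (by norm_num)
      _ = x := Real.rpow_one _
  have hx4 : 0 ≤ x ^ (1 / 2 : ℝ) := by positivity
  -- the four sums
  rw [Ee_eq]
  unfold Maj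
  simp only [II_one, mul_one]
  set S1 := ∑ d ∈ roughs y X, ∑ d' ∈ (roughs y X).filter (fun d' => ¬ Nat.Coprime d d'),
      II d (n - a) * II d' (n - a')
  set S2 := ∑ d ∈ roughs y X, ∑ d' ∈ (roughs y X).filter (fun d' => ¬ Nat.Coprime d d'),
      1 / (d' : ℝ) * II d (n - a) with hS2
  set S3 := ∑ d ∈ roughs y X, ∑ d' ∈ (roughs y X).filter (fun d' => ¬ Nat.Coprime d d'),
      1 / (d : ℝ) * II d' (n - a') with hS3
  set S4 := ∑ d ∈ roughs y X, ∑ d' ∈ (roughs y X).filter (fun d' => ¬ Nat.Coprime d d'),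
      1 / ((d : ℝ) * d') with hS4
  set L := ∑ l ∈ (rd y (2 * N) (a' - a)).filter Nat.Prime, II l (n - a) with hL
  have hT1 : ∑ l ∈ (rd y (2 * N) (a' - a)).filter Nat.Prime, Wt (2 * N) n * II l (n - a) =
      Wt (2 * N) n * L := by rw [hL, Finset.mul_sum]
  have hT2 : ∑ d ∈ roughs y X, ∑ d' ∈ (roughs y X).filter (fun d' => ¬ Nat.Coprime d d'),
      1 / (d' : ℝ) * (Wt (2 * N) n * II d (n - a)) = Wt (2 * N) n * S2 := by
    rw [hS2, Finset.mul_sum]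
    refine Finset.sum_congr rfl fun d _ => ?_
    rw [Finset.mul_sum]
    refine Finset.sum_congr rfl fun d' _ => ?_
    ring
  have hT3 : ∑ d ∈ roughs y X, ∑ d' ∈ (roughs y X).filter (fun d' => ¬ Nat.Coprime d d'),
      1 / (d : ℝ) * (Wt (2 * N) n * II d' (n - a')) = Wt (2 * N) n * S3 := by
    rw [hS3, Finset.mul_sum]
    refine Finset.sum_congr rfl fun d _ => ?_
    rw [Finset.mul_sum]
    refine Finset.sum_congr rfl fun d' _ => ?_
    ring
  have hT4 : ∑ d ∈ roughs y X, ∑ d' ∈ (roughs y X).filter (fun d' => ¬ Nat.Coprime d d'),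
      1 / ((d : ℝ) * d') * Wt (2 * N) n = Wt (2 * N) n * S4 := by
    rw [hS4, Finset.mul_sum]
    refine Finset.sum_congr rfl fun d _ => ?_
    rw [Finset.mul_sum]
    refine Finset.sum_congr rfl fun d' _ => ?_
    ring
  rw [hT1, hT2, hT3, hT4]
  have p1 : 0 ≤ S1 := Finset.sum_nonneg fun _ _ => Finset.sum_nonneg fun _ _ =>
    mul_nonneg (II_nonneg _ _) (II_nonneg _ _)
  have p2 : 0 ≤ S2 := Finset.sum_nonneg fun _ _ => Finset.sum_nonneg fun _ _ =>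
    mul_nonneg (by positivity) (II_nonneg _ _)
  have p3 : 0 ≤ S3 := Finset.sum_nonneg fun _ _ => Finset.sum_nonneg fun _ _ =>
    mul_nonneg (by positivity) (II_nonneg _ _)
  have p4 : 0 ≤ S4 := Finset.sum_nonneg fun _ _ => Finset.sum_nonneg fun _ _ => by positivity
  have pL : 0 ≤ L := Finset.sum_nonneg fun _ _ => II_nonneg _ _
  have hWx : Wt N n * x ≤ 2 * Wt (2 * N) n := hGS
  exact alg_gen G K1 (x ^ (1 / 2 : ℝ)) x (Wt N n) (Wt (2 * N) n) (C0 ^ 2) S1 S2 S3 S4 L hK1 hW0.le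
    hx4 hx2 hx3 hG hE1 hWx p1 p2 p3 p4 pL (by positivity)

end Pool.Agent.W372.PL
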